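import Pool.Agent.Lib_helper62.HL.Cyc

/-!
The class-level upper bound.
-/

namespace Pool.Agent.HLU

open Pool.Agent.HL Finsupp Matrix CategoryTheory

variable {G : Type} [Group G]

/-- An invariant functional on chains is the homogeneous form of an inhomogeneous cochain. -/
theorem hom_of_inv {n : ℕ} (f : T G (n + 1) →ₗ[ℤ] ℤ) (hf : ∀ (g : G) x, f (ac g (n + 1) x) = f x)
    (x : T G (n + 1)) : hom n (fun g => f (Finsupp.single (Fin.partialProd g) 1)) x = f x := by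
  refine T_ext_apply (f := hom n (fun g => f (Finsupp.single (Fin.partialProd g) 1))) (f' := f)
    (fun v => ?_) x
  rw [hom_single, one_mul]
  have h1 : Finsupp.single v (1 : ℤ) = ac (v 0) (n + 1)
      (Finsupp.single (Fin.partialProd fun i : Fin n => (v i.castSucc)⁻¹ * v i.succ) 1) := by
    rw [ac_single, Fin.partialProd_left_inv]
  conv_rhs => rw [h1, hf]

theorem cls_smul_zero {k : ℕ} (f : (Fin (k + 1) → G) → ℤ)
    (hf : inhomogeneousCochains.d (ZRep G) (k + 1) f = 0) (K : ℤ)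
    (b : (Fin k → G) → ℤ) (hb : inhomogeneousCochains.d (ZRep G) k b = K • f) :
    K • cls f hf = 0 := by
  rw [cls, ← map_zsmul]
  let C := groupCohomology.inhomogeneousCochains (ZRep G)
  have h1 : K • groupCohomology.cocyclesMk f hf =
      groupCohomology.toCocycles (ZRep G) k (k + 1) b := by
    apply iCocycles_inj
    rw [map_zsmul, groupCohomology.iCocycles_mk, ← hb]
    change _ = (C.iCycles (k + 1)) ((C.toCycles k (k + 1)) b)
    rw [← ModuleCat.comp_apply, HomologicalComplex.toCycles_i]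
    rw [groupCohomology.inhomogeneousCochains.d_def]
  rw [h1]
  change (C.homologyπ (k + 1)) ((C.toCycles k (k + 1)) b) = 0
  rw [← ModuleCat.comp_apply, HomologicalComplex.toCycles_comp_homologyπ]
  rfl

/-- **Upper bound.** -/
theorem upper_euler {n : ℕ} (ρ : G →* Matrix (Fin (n + 1)) (Fin (n + 1)) ℤ)
    (hρ : ∀ g, 0 < (rl ρ g).det) (p : ℕ) (hp : p.Prime) :
    ((p : ℤ) ^ (n + 3) * ((p : ℤ) ^ (n + 1) - 1)) • eulerClass (Nat.succ_ne_zero n) (rl ρ) hρ = 0 := by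
  have : Fact p.Prime := ⟨hp⟩
  rw [eulerClass_eq (Nat.succ_ne_zero n) (rl ρ) hρ (FG_adm ρ)]
  let Λ : T G (n + 1) → RZ p := Lam ρ (xa ρ p) (sa ρ p) (p : RZ p) (chi ρ p)
  let f : T G (n + 1) →ₗ[ℤ] ℤ := (rr p).comp
    (AddMonoidHom.toIntLinearMap (AddMonoidHom.mk' Λ (Lam_add ρ _ _ _ _)))
  have hf : ∀ x, f x = rr p (Λ x) := fun x => rfl
  refine cls_smul_zero _ _ _ (fun g => f (Finsupp.single (Fin.partialProd g) 1)) ?_
  apply hom_ext'
  intro x
  rw [← hom_bd, hom_of_inv f ?_, hom_smul, LinearMap.smul_apply, hom_eCo hρ (FG_adm ρ), hf]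
  · have h1 := Lam_bd ρ (xa ρ p) (sa ρ p) (p : RZ p) (chi ρ p) (chi_smul ρ p) (sa_mul ρ p)
      (chi_add ρ p) (chi_zero ρ p) x
    have h2 : Λ (bd (n + 1) x) = ((((p : ℤ) ^ (n + 3) * ((p : ℤ) ^ (n + 1) - 1)) *
        wind (FG ρ (n + 1) (bd (n + 1) x)) : ℤ) : RZ p) := by
      change Lam ρ (xa ρ p) (sa ρ p) (p : RZ p) (chi ρ p) (bd (n + 1) x) = _
      rw [h1, card_Xp]
      have h3 : 1 ≤ p ^ (n + 1) := Nat.one_le_pow _ _ hp.pos
      push_cast [Nat.cast_sub h3]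
      ring
    rw [h2, rr_int, smul_eq_mul]
  · intro g y
    rw [hf, hf]
    congr 1
    exact Lam_ac ρ (xa ρ p) (sa ρ p) (p : RZ p) (chi ρ p) (chi_smul ρ p) hρ g y

/-- The standard integral representation of `Sp_{2g}(ℤ)`. -/
def spZ (g : ℕ) : Spl (Fin g) →* Matrix (Fin (2 * g)) (Fin (2 * g)) ℤ where
  toFun A := Matrix.reindex (crd g) (crd g) (A : Matrix (Fin g ⊕ Fin g) (Fin g ⊕ Fin g) ℤ)
  map_one' := by simp
  map_mul' A B := by simp [Matrix.reindex_apply, Matrix.submatrix_mul_equiv]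

theorem rl_spZ (g : ℕ) : rl (spZ g) = spRep g := by
  ext A i j
  rfl

theorem upper_hodge (g : ℕ) (hg : 2 * g ≠ 0) (p : ℕ) (hp : p.Prime) :
    ((p : ℤ) ^ (2 * g + 2) * ((p : ℤ) ^ (2 * g) - 1)) • hodgeTop g hg = 0 := by
  have key : ∀ (m : ℕ) (hm : m ≠ 0) (ρ : Spl (Fin g) →* Matrix (Fin m) (Fin m) ℤ)
      (hρ : ∀ A, 0 < (rl ρ A).det),
      ((p : ℤ) ^ (m + 2) * ((p : ℤ) ^ m - 1)) • eulerClass hm (rl ρ) hρ = 0 := by
    intro m hm ρ hρ
    obtain ⟨n, rfl⟩ := Nat.exists_eq_succ_of_ne_zero hm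
    exact upper_euler ρ hρ p hp
  have h := key (2 * g) hg (spZ g) (fun A => by rw [rl_spZ]; exact spRep_pos g A)
  simp only [rl_spZ] at h
  exact h

end Pool.Agent.HLU
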