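import Pool.Agent.Lib_helper43.HL.Euler2

/-!
Chains on tuples with coefficients in a commutative ring.
-/

namespace Pool.Agent.HLU

open Pool.Agent.HL Finsupp

/-- The free `R`-module on `k`-tuples of elements of `X`. -/
abbrev TR (R : Type*) [CommRing R] (X : Type*) (k : ℕ) := (Fin k → X) →₀ R

section basicR

variable {R : Type*} [CommRing R] {X Y : Type*}

theorem lin_ext {M : Type*} [AddCommGroup M] [Module R M] {k : ℕ} {f f' : TR R X k →ₗ[R] M}
    (h : ∀ v, f (Finsupp.single v 1) = f' (Finsupp.single v 1)) : f = f' :=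
  Finsupp.lhom_ext' fun v => LinearMap.ext_ring (h v)

theorem lin_ext_apply {M : Type*} [AddCommGroup M] [Module R M] {k : ℕ} {f f' : TR R X k →ₗ[R] M}
    (h : ∀ v, f (Finsupp.single v 1) = f' (Finsupp.single v 1)) (x : TR R X k) : f x = f' x := by
  rw [lin_ext h]

/-- The alternating boundary. -/
noncomputable def bdR (k : ℕ) : TR R X (k + 1) →ₗ[R] TR R X k :=
  Finsupp.linearCombination R
    (fun v : Fin (k + 1) → X => ∑ i : Fin (k + 1), Finsupp.single (v ∘ i.succAbove) ((-1 : R) ^ (i : ℕ)))

theorem bdR_single (k : ℕ) (v : Fin (k + 1) → X) :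
    bdR k (Finsupp.single v (1 : R)) =
      ∑ i : Fin (k + 1), Finsupp.single (v ∘ i.succAbove) ((-1 : R) ^ (i : ℕ)) := by
  simp [bdR]

/-- Put the point `w` in front of all tuples. -/
noncomputable def coneR (w : X) (k : ℕ) : TR R X k →ₗ[R] TR R X (k + 1) :=
  Finsupp.lmapDomain R R (fun v => Fin.cons w v)

theorem coneR_single (w : X) (k : ℕ) (v : Fin k → X) (a : R) :
    coneR w k (Finsupp.single v a) = Finsupp.single (Fin.cons w v) a := by
  simp [coneR]

/-- Functoriality of chains. -/
noncomputable def tmapR (f : X → Y) (k : ℕ) : TR R X k →ₗ[R] TR R Y k :=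
  Finsupp.lmapDomain R R (fun v => f ∘ v)

theorem tmapR_single (f : X → Y) (k : ℕ) (v : Fin k → X) (a : R) :
    tmapR f k (Finsupp.single v a) = Finsupp.single (f ∘ v) a := by
  simp [tmapR]

theorem tmapR_comp {Z : Type*} (f : Y → Z) (g : X → Y) (k : ℕ) (x : TR R X k) :
    tmapR f k (tmapR g k x) = tmapR (f ∘ g) k x := by
  refine lin_ext_apply (f := (tmapR f k).comp (tmapR g k)) (f' := tmapR (f ∘ g) k) (fun v => ?_) x
  simp [tmapR_single, Function.comp_assoc]

theorem tmapR_id (k : ℕ) (x : TR R X k) : tmapR (id : X → X) k x = x := by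
  refine lin_ext_apply (f := tmapR (id : X → X) k) (f' := LinearMap.id) (fun v => ?_) x
  simp [tmapR_single]

theorem bdR_tmapR (f : X → Y) (k : ℕ) (x : TR R X (k + 1)) :
    bdR k (tmapR f (k + 1) x) = tmapR f k (bdR k x) := by
  refine lin_ext_apply (f := (bdR k).comp (tmapR f (k + 1))) (f' := (tmapR f k).comp (bdR k))
    (fun v => ?_) x
  simp only [LinearMap.comp_apply, tmapR_single, bdR_single, map_sum]
  rfl

theorem tmapR_coneR (f : X → Y) (w : X) (k : ℕ) (x : TR R X k) :
    tmapR f (k + 1) (coneR w k x) = coneR (f w) k (tmapR f k x) := by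
  refine lin_ext_apply (f := (tmapR f (k + 1)).comp (coneR w k))
    (f' := (coneR (f w) k).comp (tmapR f k)) (fun v => ?_) x
  simp only [LinearMap.comp_apply, tmapR_single, coneR_single]
  congr 1
  funext i
  refine Fin.cases ?_ (fun j => ?_) i <;> simp

theorem bdR_coneR (w : X) (k : ℕ) (x : TR R X (k + 1)) :
    bdR (k + 1) (coneR w (k + 1) x) = x - coneR w k (bdR k x) := by
  refine lin_ext_apply (f := (bdR (k + 1)).comp (coneR w (k + 1)))
    (f' := LinearMap.id - (coneR w k).comp (bdR k)) (fun v => ?_) x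
  simp only [LinearMap.comp_apply, coneR_single, bdR_single,
    LinearMap.sub_apply, LinearMap.id_apply, map_sum]
  rw [Fin.sum_univ_succ]
  have h0 : (Fin.cons w v : Fin (k + 2) → X) ∘ (0 : Fin (k + 2)).succAbove = v := by
    funext i; simp
  rw [h0]
  have h1 : ∀ i : Fin (k + 1), (Fin.cons w v : Fin (k + 2) → X) ∘ (i.succ).succAbove
      = Fin.cons w (v ∘ i.succAbove) := by
    intro i
    funext j
    refine Fin.cases ?_ (fun j => ?_) j <;> simp
  simp only [h1, Fin.val_succ, pow_succ, Fin.val_zero, pow_zero, mul_neg, mul_one,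
    Finsupp.single_neg, Finset.sum_neg_distrib]
  rw [← sub_eq_add_neg]

theorem bdR_bdR (k : ℕ) (x : TR R X (k + 2)) : bdR k (bdR (k + 1) x) = 0 := by
  induction k with
  | zero =>
    refine lin_ext_apply (f := (bdR 0).comp (bdR (0 + 1))) (f' := 0) (fun v => ?_) x
    simp only [LinearMap.comp_apply, LinearMap.zero_apply]
    have hv : Finsupp.single v (1 : R) = coneR (v 0) 1 (Finsupp.single (Fin.tail v) 1) := by
      rw [coneR_single, Fin.cons_self_tail]
    rw [hv]
    erw [bdR_coneR (v 0) 0]
    rw [map_sub, sub_eq_zero]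
    have h2 : ∀ y : TR R X 0, bdR 0 (coneR (v 0) 0 y) = y := by
      intro y
      refine lin_ext_apply (f := (bdR 0).comp (coneR (v 0) 0)) (f' := LinearMap.id)
        (fun v => ?_) y
      simp only [LinearMap.comp_apply, coneR_single, bdR_single, LinearMap.id_apply]
      rw [Fin.sum_univ_succ, Finset.univ_eq_empty, Finset.sum_empty, add_zero]
      simp only [Fin.val_zero, pow_zero]
      congr 1
    rw [h2]
  | succ k ih =>
    refine lin_ext_apply (f := (bdR (k + 1)).comp (bdR (k + 1 + 1))) (f' := 0) (fun v => ?_) x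
    simp only [LinearMap.comp_apply, LinearMap.zero_apply]
    have hv : Finsupp.single v (1 : R) = coneR (v 0) (k + 1 + 1) (Finsupp.single (Fin.tail v) 1) := by
      rw [coneR_single, Fin.cons_self_tail]
    rw [hv, bdR_coneR, map_sub, bdR_coneR, ih, map_zero]
    abel

/-- Change of coefficients. -/
noncomputable def toR (k : ℕ) : T X k →ₗ[ℤ] TR R X k :=
  Finsupp.linearCombination ℤ (fun v => Finsupp.single v (1 : R))

theorem toR_single (k : ℕ) (v : Fin k → X) (a : ℤ) :
    toR k (Finsupp.single v a) = Finsupp.single v (a : R) := by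
  rw [toR, Finsupp.linearCombination_single, Finsupp.smul_single, zsmul_one]

theorem T_ext {M : Type*} [AddCommGroup M] {k : ℕ} {f f' : T X k →ₗ[ℤ] M}
    (h : ∀ v, f (Finsupp.single v 1) = f' (Finsupp.single v 1)) : f = f' :=
  Finsupp.lhom_ext' fun v => LinearMap.ext_ring (h v)

theorem T_ext_apply {M : Type*} [AddCommGroup M] {k : ℕ} {f f' : T X k →ₗ[ℤ] M}
    (h : ∀ v, f (Finsupp.single v 1) = f' (Finsupp.single v 1)) (x : T X k) : f x = f' x := by
  rw [T_ext h]

theorem toR_bd (k : ℕ) (x : T X (k + 1)) : toR (R := R) k (bd k x) = bdR k (toR (k + 1) x) := by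
  refine T_ext_apply (f := (toR (R := R) k).comp (bd k))
    (f' := ((bdR k).restrictScalars ℤ).comp (toR (k + 1))) (fun v => ?_) x
  simp only [LinearMap.comp_apply, LinearMap.restrictScalars_apply, toR_single, bd_single,
    Int.cast_one, bdR_single, map_sum]
  refine Finset.sum_congr rfl fun i _ => ?_
  push_cast
  rfl

theorem toR_cone (w : X) (k : ℕ) (x : T X k) :
    toR (R := R) (k + 1) (cone w k x) = coneR w k (toR k x) := by
  refine T_ext_apply (f := (toR (R := R) (k + 1)).comp (cone w k))
    (f' := ((coneR w k).restrictScalars ℤ).comp (toR k)) (fun v => ?_) x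
  simp only [LinearMap.comp_apply, LinearMap.restrictScalars_apply, toR_single, cone_single,
    Int.cast_one, coneR_single]

theorem toR_tmap (f : X → Y) (k : ℕ) (x : T X k) :
    toR (R := R) k (tmap f k x) = tmapR f k (toR k x) := by
  refine T_ext_apply (f := (toR (R := R) k).comp (tmap f k))
    (f' := ((tmapR f k).restrictScalars ℤ).comp (toR k)) (fun v => ?_) x
  simp only [LinearMap.comp_apply, LinearMap.restrictScalars_apply, toR_single, tmap_single,
    Int.cast_one, tmapR_single]

/-- Chains supported on a set of tuples. -/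
theorem map_supp {k : ℕ} {M : Type*} [AddCommGroup M] [Module R M] (P : Set (Fin k → X))
    (f : TR R X k →ₗ[R] M)
    (S : Submodule R M) (h : ∀ v ∈ P, f (Finsupp.single v 1) ∈ S) (x : TR R X k)
    (hx : x ∈ Finsupp.supported R R P) : f x ∈ S := by
  have h1 : x = ∑ v ∈ x.support, x v • Finsupp.single v (1 : R) := by
    conv_lhs => rw [← Finsupp.sum_single x, Finsupp.sum]
    refine Finset.sum_congr rfl fun v _ => ?_
    rw [Finsupp.smul_single, smul_eq_mul, mul_one]
  rw [h1, map_sum]
  refine S.sum_mem fun v hv => ?_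
  rw [map_smul]
  exact S.smul_mem _ (h v ((Finsupp.mem_supported R x).mp hx hv))

theorem toR_supp {k : ℕ} (P : Set (Fin k → X)) (x : T X k) (hx : x ∈ Finsupp.supported ℤ ℤ P) :
    toR (R := R) k x ∈ Finsupp.supported R R P := by
  classical
  have h1 : x = ∑ v ∈ x.support, Finsupp.single v (x v) := (Finsupp.sum_single x).symm
  rw [h1, map_sum]
  refine Submodule.sum_mem _ fun v hv => ?_
  rw [toR_single]
  exact Finsupp.single_mem_supported _ _ ((Finsupp.mem_supported ℤ x).mp hx hv)

end basicR

end Pool.Agent.HLU
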