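import Pool.Agent.Lib_helper62.HL.Eqv

/-!
Signed intersection numbers of affine simplices with the lattice.
-/

namespace Pool.Agent.HLU

open Pool.Agent.HL Finsupp Matrix

variable {n : ℕ} {R : Type*} [CommRing R] {G : Type} [Group G]

/-- The signed multiplicity of the lattice point `l` in the simplex `v`. -/
noncomputable def io (l : Fin n → ℤ) (v : Fin (n + 1) → Fin n → ℝ) : ℤ :=
  phi (lf (lat l)) (fun i => lf (v i))

theorem io_fin (v : Fin (n + 1) → Fin n → ℝ) : {l : Fin n → ℤ | io l v ≠ 0}.Finite := by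
  set C : ℝ := ∑ j, ∑ i, |v j i| with hC
  refine (Set.finite_Icc (fun _ => -⌈C⌉ : Fin n → ℤ) (fun _ => ⌈C⌉)).subset ?_
  intro l hl
  have hex : ∃ b : Fin (n + 1) → ℝ, (∀ j, 0 < b j) ∧ lf (lat l) = ∑ j, b j • lf (v j) := by
    by_contra hcon
    apply hl
    rw [io, phi, if_neg hcon]
  obtain ⟨b, hb, hl2⟩ := hex
  have h0 : ∑ j, b j = 1 := by
    have := congrFun hl2 0
    rw [Finset.sum_apply] at this
    simp only [Pi.smul_apply, lf_zero, smul_eq_mul, mul_one] at this
    exact this.symm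
  have hbd : ∀ i, |(l i : ℝ)| ≤ C := by
    intro i
    have h1 := congrFun hl2 i.succ
    rw [Finset.sum_apply] at h1
    simp only [Pi.smul_apply, lf_succ, smul_eq_mul, lat] at h1
    rw [h1]
    refine (Finset.abs_sum_le_sum_abs _ _).trans ?_
    rw [hC]
    refine Finset.sum_le_sum fun j _ => ?_
    rw [abs_mul, abs_of_pos (hb j)]
    have h2 : b j ≤ 1 := by
      rw [← h0]
      exact Finset.single_le_sum (fun k _ => (hb k).le) (Finset.mem_univ j)
    have h3 : |v j i| ≤ ∑ i, |v j i| :=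
      Finset.single_le_sum (f := fun i => |v j i|) (fun k _ => abs_nonneg _) (Finset.mem_univ i)
    calc b j * |v j i| ≤ 1 * |v j i| := mul_le_mul_of_nonneg_right h2 (abs_nonneg _)
      _ = |v j i| := one_mul _
      _ ≤ _ := h3
  rw [Set.mem_Icc]
  constructor
  · intro i
    have h1 := (abs_le.mp (hbd i)).1
    have h2 := Int.le_ceil C
    have : ((-⌈C⌉ : ℤ) : ℝ) ≤ (l i : ℝ) := by push_cast; linarith
    exact_mod_cast this
  · intro i
    have h1 := (abs_le.mp (hbd i)).2
    have h2 := Int.le_ceil C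
    have : ((l i : ℤ) : ℝ) ≤ ((⌈C⌉ : ℤ) : ℝ) := by linarith
    exact_mod_cast this

/-- The lattice points of a simplex with their multiplicities. -/
noncomputable def Jv (v : Fin (n + 1) → Fin n → ℝ) : (Fin n → ℤ) →₀ R :=
  Finsupp.ofSupportFinite (fun l => ((io l v : ℤ) : R)) ((io_fin v).subset (by
    intro l hl
    rw [Function.mem_support] at hl
    intro h0
    apply hl
    rw [h0, Int.cast_zero]))

theorem Jv_apply (v : Fin (n + 1) → Fin n → ℝ) (l : Fin n → ℤ) :
    (Jv v : (Fin n → ℤ) →₀ R) l = ((io l v : ℤ) : R) := rfl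

/-- The lattice points of a chain with their multiplicities. -/
noncomputable def J : TR R (Fin n → ℝ) (n + 1) →ₗ[R] ((Fin n → ℤ) →₀ R) :=
  Finsupp.linearCombination R Jv

theorem J_single (v : Fin (n + 1) → Fin n → ℝ) (a : R) :
    J (Finsupp.single v a) = a • (Jv v : (Fin n → ℤ) →₀ R) := by
  rw [J, Finsupp.linearCombination_single]

theorem J_single_apply (v : Fin (n + 1) → Fin n → ℝ) (a : R) (l : Fin n → ℤ) :
    (J (Finsupp.single v a)) l = a * ((io l v : ℤ) : R) := by
  rw [J_single, Finsupp.smul_apply, Jv_apply, smul_eq_mul]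

/-- Multiplicity of a point as a linear functional. -/
noncomputable def ev (l : Fin n → ℤ) : TR R (Fin n → ℝ) (n + 1) →ₗ[R] R :=
  (Finsupp.lapply l).comp J

theorem ev_apply (l : Fin n → ℤ) (x : TR R (Fin n → ℝ) (n + 1)) : ev l x = (J x) l := rfl

theorem face_io (l : Fin n → ℤ) (u : Fin (n + 2) → Fin n → ℝ) (hu : Gs (lat l) (Set.range u)) :
    ∑ i : Fin (n + 2), (-1) ^ (i : ℕ) * io l (u ∘ i.succAbove) = 0 := by
  classical
  have h := face_zero (n := n + 1) (fun i => lf (u i)) (lf (lat l)) ?_ ?_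
  · exact h
  · intro h0
    have h1 : (0 : Fin (n + 1) → ℝ) ∈ {y : Fin (n + 1) → ℝ | y 0 = 1} := by
      refine convexHull_min ?_ ?_ h0
      · rintro _ ⟨i, rfl⟩
        exact lf_zero _
      · intro x hx y hy a b _ _ hab
        have hx' : x 0 = 1 := hx
        have hy' : y 0 = 1 := hy
        change (a • x + b • y) 0 = 1
        rw [Pi.add_apply, Pi.smul_apply, Pi.smul_apply, hx', hy', smul_eq_mul, smul_eq_mul,
          mul_one, mul_one, hab]
    exact zero_ne_one h1
  · intro i j hij hmem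
    refine hu ((Finset.univ.filter fun k => k ≠ i ∧ k ≠ j).image u) ?_ ?_ ?_
    · intro y hy
      rw [Finset.coe_image] at hy
      obtain ⟨k, _, rfl⟩ := hy
      exact ⟨k, rfl⟩
    · refine Finset.card_image_le.trans ?_
      have h1 := ncard_omit2 (n + 1) i j hij
      have h2 : {k : Fin (n + 1 + 1) | k ≠ i ∧ k ≠ j}.ncard =
          (Finset.univ.filter fun k : Fin (n + 1 + 1) => k ≠ i ∧ k ≠ j).card := by
        rw [← Set.ncard_coe_finset]
        congr 1
        ext k; simp
      omega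
    · rw [Finset.coe_image, Set.image_image]
      have h3 : ((Finset.univ.filter fun k : Fin (n + 2) => k ≠ i ∧ k ≠ j : Finset (Fin (n + 2))) :
          Set (Fin (n + 2))) = {k | k ≠ i ∧ k ≠ j} := by
        ext k; simp
      rw [h3]
      exact hmem

theorem J_bd (l : Fin n → ℤ) (y : TR R (Fin n → ℝ) (n + 2))
    (hy : y ∈ Finsupp.supported R R {u : Fin (n + 2) → Fin n → ℝ | Gs (lat l) (Set.range u)}) :
    (J (bdR (n + 1) y)) l = 0 := by
  have h := map_supp (R := R) _ ((ev l).comp (bdR (n + 1))) (⊥ : Submodule R R) (fun v hv => ?_) y hy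
  · exact h
  · rw [Submodule.mem_bot, LinearMap.comp_apply, bdR_single, map_sum]
    have h1 := face_io l v hv
    have h2 := congrArg (Int.cast : ℤ → R) h1
    push_cast at h2
    rw [← h2]
    refine Finset.sum_congr rfl fun i _ => ?_
    rw [ev_apply, J_single_apply]

/-- Orientation preserving affine maps preserve multiplicities. -/
theorem phi_aff (A : Matrix (Fin n) (Fin n) ℝ) (hA : 0 < A.det) (c y : Fin n → ℝ)
    (v : Fin (n + 1) → Fin n → ℝ) :
    phi (lf (A *ᵥ y + c)) (fun i => lf (A *ᵥ v i + c)) = phi (lf y) (fun i => lf (v i)) := by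
  let M : Matrix (Fin (n + 1)) (Fin (n + 1)) ℝ :=
    Matrix.of (Fin.cons (Fin.cons 1 0) (fun i => Fin.cons (c i) (A i)))
  have h00 : M 0 0 = 1 := rfl
  have h0s : ∀ j : Fin n, M 0 j.succ = 0 := fun j => rfl
  have hs0 : ∀ i : Fin n, M i.succ 0 = c i := fun i => rfl
  have hss : ∀ i j : Fin n, M i.succ j.succ = A i j := fun i j => rfl
  have hM : ∀ z : Fin n → ℝ, M *ᵥ lf z = lf (A *ᵥ z + c) := by
    intro z
    funext i
    refine Fin.cases ?_ (fun i => ?_) i
    · rw [Matrix.mulVec, dotProduct, Fin.sum_univ_succ]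
      simp [h00, h0s, lf_zero]
    · rw [Matrix.mulVec, dotProduct, Fin.sum_univ_succ]
      simp only [hs0, hss, lf_zero, lf_succ, mul_one, Pi.add_apply]
      rw [add_comm]
      rfl
  have hdet : M.det = A.det := by
    rw [Matrix.det_succ_row_zero, Fin.sum_univ_succ]
    simp only [h0s, h00]
    simp only [Fin.val_zero, pow_zero, one_mul, mul_zero, zero_mul, Finset.sum_const_zero,
      add_zero]
    congr 1
  have h := phi_lm M (by rw [hdet]; exact hA) (lf y) (fun i => lf (v i))
  simp only [hM] at h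
  exact h

theorem J_tr (m : Fin n → ℤ) (y : TR R (Fin n → ℝ) (n + 1)) :
    J (tr m (n + 1) y) = Finsupp.mapDomain (fun l => l + m) (J y) := by
  have hinj : Function.Injective (fun l : Fin n → ℤ => l + m) := add_left_injective m
  have hev : ∀ l, (J (tr m (n + 1) y)) (l + m) = (J y) l := by
    intro l
    refine lin_ext_apply (f := (ev (l + m)).comp (tr m (n + 1))) (f' := ev l) (fun v => ?_) y
    rw [LinearMap.comp_apply, tr_single, ev_apply, ev_apply, J_single_apply, J_single_apply, io, io]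
    have h := phi_aff (1 : Matrix (Fin n) (Fin n) ℝ) (by simp) (lat m) (lat l) v
    simp only [Matrix.one_mulVec] at h
    rw [lat_add, h]
  refine Finsupp.ext fun l => ?_
  have h1 : l = (l - m) + m := by abel
  rw [h1, hev, Finsupp.mapDomain_apply hinj]

theorem J_lm (ρ : G →* Matrix (Fin n) (Fin n) ℤ) (g : G) (hg : 0 < (rl ρ g).det)
    (y : TR R (Fin n → ℝ) (n + 1)) :
    J (lmR (rl ρ g) (n + 1) y) = Finsupp.mapDomain (fun l => ρ g *ᵥ l) (J y) := by
  have hinj : Function.Injective (fun l : Fin n → ℤ => ρ g *ᵥ l) := by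
    intro a b hab
    have h1 : ∀ l : Fin n → ℤ, ρ g⁻¹ *ᵥ (ρ g *ᵥ l) = l := by
      intro l
      rw [Matrix.mulVec_mulVec, ← map_mul, inv_mul_cancel, map_one, Matrix.one_mulVec]
    rw [← h1 a, ← h1 b]
    exact congrArg _ hab
  have hev : ∀ l, (J (lmR (rl ρ g) (n + 1) y)) (ρ g *ᵥ l) = (J y) l := by
    intro l
    refine lin_ext_apply (f := (ev (ρ g *ᵥ l)).comp (lmR (rl ρ g) (n + 1))) (f' := ev l)
      (fun v => ?_) y
    rw [LinearMap.comp_apply, lmR_single, ev_apply, ev_apply, J_single_apply, J_single_apply, io, io]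
    have h := phi_aff (rl ρ g) hg 0 (lat l) v
    simp only [add_zero] at h
    rw [← rl_lat, h]
  refine Finsupp.ext fun l => ?_
  have h1 := rho_inv ρ g l
  rw [← h1, hev]
  exact (Finsupp.mapDomain_apply hinj (J y) (ρ g⁻¹ *ᵥ l)).symm

/-- Twisted intersection number with the lattice. -/
noncomputable def II (χ : (Fin n → ℤ) → R) : TR R (Fin n → ℝ) (n + 1) →ₗ[R] R :=
  (Finsupp.linearCombination R χ).comp J

theorem II_tr (χ : (Fin n → ℤ) → R) (hmul : ∀ l m, χ (l + m) = χ l * χ m) (m : Fin n → ℤ)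
    (y : TR R (Fin n → ℝ) (n + 1)) : II χ (tr m (n + 1) y) = χ m * II χ y := by
  rw [II, LinearMap.comp_apply, LinearMap.comp_apply, J_tr, Finsupp.linearCombination_mapDomain]
  have h1 : ∀ z : (Fin n → ℤ) →₀ R, Finsupp.linearCombination R (χ ∘ fun l => l + m) z =
      χ m * Finsupp.linearCombination R χ z := by
    intro z
    rw [Finsupp.linearCombination_apply, Finsupp.linearCombination_apply, Finsupp.sum, Finsupp.sum,
      Finset.mul_sum]
    refine Finset.sum_congr rfl fun l _ => ?_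
    rw [Function.comp_apply, hmul, smul_eq_mul, smul_eq_mul]
    ring
  exact h1 _

theorem II_Qr (χ : (Fin n → ℤ) → R) (hmul : ∀ l m, χ (l + m) = χ l * χ m)
    (z : TR R (Fin n → ℝ) (n + 1)) (hz : z ∈ Qr χ (n + 1)) : II χ z = 0 := by
  have h := map_Qr χ (n + 1) (II χ) (⊥ : Submodule R R) (fun m y => ?_) z hz
  · exact h
  · rw [Submodule.mem_bot, map_sub, II_tr χ hmul, map_smul, smul_eq_mul, sub_self]

theorem II_lm (ρ : G →* Matrix (Fin n) (Fin n) ℤ) (g : G) (hg : 0 < (rl ρ g).det)
    (χ χ' : (Fin n → ℤ) → R) (h : ∀ l, χ' (ρ g *ᵥ l) = χ l) (y : TR R (Fin n → ℝ) (n + 1)) :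
    II χ' (lmR (rl ρ g) (n + 1) y) = II χ y := by
  rw [II, II, LinearMap.comp_apply, LinearMap.comp_apply, J_lm ρ g hg,
    Finsupp.linearCombination_mapDomain]
  have : (χ' ∘ fun l => ρ g *ᵥ l) = χ := funext h
  rw [this]

theorem II_bd (χ : (Fin n → ℤ) → R) (y : TR R (Fin n → ℝ) (n + 2))
    (hy : y ∈ Finsupp.supported R R (GA (n := n) (n + 2))) : II χ (bdR (n + 1) y) = 0 := by
  rw [II, LinearMap.comp_apply]
  have : J (bdR (n + 1) y) = 0 := by
    refine Finsupp.ext fun l => ?_
    rw [Finsupp.zero_apply]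
    have hsub : (GA (n + 2) : Set (Fin (n + 2) → Fin n → ℝ)) ⊆
        {u : Fin (n + 2) → Fin n → ℝ | Gs (lat l) (Set.range u)} := fun t ht => ht l
    exact J_bd l y (Finsupp.supported_mono hsub hy)
  rw [this, map_zero]

/-- The multiplicity of the origin in a cone. -/
theorem io_cone (q : Fin n → ℝ) (v : Fin n → Fin n → ℝ) :
    io 0 (Fin.cons q v : Fin (n + 1) → Fin n → ℝ) = phi (-q) v := by
  have hu0 : (Fin.cons q v : Fin (n + 1) → Fin n → ℝ) 0 = q := rfl
  have hus : ∀ j : Fin n, (Fin.cons q v : Fin (n + 1) → Fin n → ℝ) j.succ = v j := fun j => rfl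
  rw [io, lat_zero]
  have hiff : (∃ b : Fin (n + 1) → ℝ, (∀ j, 0 < b j) ∧
      lf 0 = ∑ j, b j • lf ((Fin.cons q v : Fin (n + 1) → Fin n → ℝ) j)) ↔
      (∃ c : Fin n → ℝ, (∀ j, 0 < c j) ∧ -q = ∑ j, c j • v j) := by
    constructor
    · rintro ⟨b, hb, hb2⟩
      refine ⟨fun j => b j.succ / b 0, fun j => div_pos (hb _) (hb _), ?_⟩
      funext i
      have h1 := congrFun hb2 i.succ
      rw [Finset.sum_apply, Fin.sum_univ_succ] at h1
      simp only [Pi.smul_apply, lf_succ, hu0, hus, smul_eq_mul, Pi.zero_apply] at h1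
      rw [Pi.neg_apply, Finset.sum_apply]
      simp only [Pi.smul_apply, smul_eq_mul]
      have hb0 := (hb 0).ne'
      have h2 : ∑ j : Fin n, b j.succ / b 0 * v j i = (∑ j : Fin n, b j.succ * v j i) / b 0 := by
        rw [Finset.sum_div]
        refine Finset.sum_congr rfl fun j _ => ?_
        ring
      rw [h2]
      field_simp
      linarith
    · rintro ⟨c, hc, hc2⟩
      have hS : 0 < 1 + ∑ j, c j := by
        have : 0 ≤ ∑ j, c j := Finset.sum_nonneg fun j _ => (hc j).le
        linarith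
      refine ⟨Fin.cons (1 / (1 + ∑ j, c j)) (fun j => c j / (1 + ∑ j, c j)), ?_, ?_⟩
      · refine Fin.cases ?_ (fun j => ?_)
        · exact div_pos one_pos hS
        · exact div_pos (hc j) hS
      · funext i
        rw [Finset.sum_apply, Fin.sum_univ_succ]
        refine Fin.cases ?_ (fun i => ?_) i
        · simp only [Pi.smul_apply, lf_zero, smul_eq_mul, mul_one, Fin.cons_zero, Fin.cons_succ]
          rw [← Finset.sum_div]
          field_simp
        · simp only [Pi.smul_apply, lf_succ, smul_eq_mul, Fin.cons_zero, Fin.cons_succ,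
            Pi.zero_apply]
          have h1 := congrFun hc2 i
          rw [Pi.neg_apply, Finset.sum_apply] at h1
          simp only [Pi.smul_apply, smul_eq_mul] at h1
          have h2 : ∑ j : Fin n, c j / (1 + ∑ j, c j) * v j i =
              (∑ j : Fin n, c j * v j i) / (1 + ∑ j, c j) := by
            rw [Finset.sum_div]
            refine Finset.sum_congr rfl fun j _ => ?_
            ring
          rw [h2, ← h1]
          field_simp
          ring
  rw [phi, phi]
  by_cases h : (∃ c : Fin n → ℝ, (∀ j, 0 < c j) ∧ -q = ∑ j, c j • v j)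
  · rw [if_pos h, if_pos (hiff.mpr h)]
    obtain ⟨c, hc, hc2⟩ := h
    have hS : 0 < 1 + ∑ j, c j := by
      have : 0 ≤ ∑ j, c j := Finset.sum_nonneg fun j _ => (hc j).le
      linarith
    let A : Matrix (Fin (n + 1)) (Fin (n + 1)) ℝ := Matrix.of (Fin.cons (lf 0) (fun j => lf (v j)))
    have hA0 : A 0 = lf 0 := rfl
    have hAs : ∀ j : Fin n, A j.succ = lf (v j) := fun j => rfl
    have hAdet : A.det = (Matrix.of v).det := by
      rw [Matrix.det_succ_row_zero, Fin.sum_univ_succ]
      have h1 : ∀ j : Fin n, A 0 j.succ = 0 := fun j => rfl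
      have h2 : A 0 0 = 1 := rfl
      simp only [h1, h2, Fin.val_zero, pow_zero, one_mul, mul_zero, zero_mul,
        Finset.sum_const_zero, add_zero]
      congr 1
    have hrow : ∑ k, (Fin.cons (1 + ∑ j, c j) (fun j => - c j) : Fin (n + 1) → ℝ) k • A k = lf q := by
      rw [Fin.sum_univ_succ]
      simp only [Fin.cons_zero, Fin.cons_succ, hA0, hAs]
      funext i
      rw [Pi.add_apply, Finset.sum_apply]
      refine Fin.cases ?_ (fun i => ?_) i
      · simp only [Pi.smul_apply, lf_zero, smul_eq_mul, mul_one]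
        rw [Finset.sum_neg_distrib]
        ring
      · simp only [Pi.smul_apply, lf_succ, smul_eq_mul, Pi.zero_apply, mul_zero, zero_add]
        have h1 := congrFun hc2 i
        rw [Pi.neg_apply, Finset.sum_apply] at h1
        simp only [Pi.smul_apply, smul_eq_mul] at h1
        simp only [neg_mul, Finset.sum_neg_distrib]
        linarith
    have hM : (Matrix.of fun i => lf ((Fin.cons q v : Fin (n + 1) → Fin n → ℝ) i)) =
        A.updateRow 0 (∑ k, (Fin.cons (1 + ∑ j, c j) (fun j => - c j) : Fin (n + 1) → ℝ) k • A k) := by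
      rw [hrow]
      ext i j
      refine Fin.cases ?_ (fun i => ?_) i
      · rw [Matrix.updateRow_self]; rfl
      · rw [Matrix.updateRow_ne (Fin.succ_ne_zero i)]; rfl
    rw [hM, Matrix.det_updateRow_sum, Fin.cons_zero, smul_eq_mul, hAdet, sign_mul, sign_pos hS,
      one_mul]
  · rw [if_neg h, if_neg (fun h' => h (hiff.mp h'))]

theorem io_cone_zero (hn : 0 < n) (v : Fin n → Fin n → ℝ) :
    io 0 (Fin.cons 0 v : Fin (n + 1) → Fin n → ℝ) = 0 := by
  rw [io_cone, neg_zero, phi]
  split_ifs with h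
  · obtain ⟨b, hb, hb2⟩ := h
    by_cases hdet : (Matrix.of v).det = 0
    · rw [hdet]; simp
    · exfalso
      have h1 : ∑ j, (0 : Fin n → ℝ) j • v j = ∑ j, b j • v j := by
        rw [← hb2]; simp
      have h2 := uniq hdet h1
      have h3 := congrFun h2 ⟨0, hn⟩
      have h4 := hb ⟨0, hn⟩
      rw [← h3] at h4
      exact lt_irrefl _ h4
  · rfl

end Pool.Agent.HLU
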