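import Pool.Agent.Lib_helper62.HL.Upp

/-!
The coefficient ring `ℤ[ζ_p]`, its characters, and the action of the group on them.
-/

namespace Pool.Agent.HLU

open Pool.Agent.HL Finsupp Matrix Polynomial

section ring

variable (p : ℕ) [hp : Fact p.Prime]

/-- The ring `ℤ[ζ_p]`. -/
abbrev RZ := AdjoinRoot (cyclotomic p ℤ)

/-- The root of unity. -/
noncomputable def tt1 : RZ p := AdjoinRoot.root (cyclotomic p ℤ)

theorem geom_tt1 : ∑ i ∈ Finset.range p, (tt1 p) ^ i = 0 := by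
  have h1 : (cyclotomic p ℤ).eval₂ (AdjoinRoot.of (cyclotomic p ℤ)) (tt1 p) = 0 :=
    AdjoinRoot.eval₂_root _
  have h2 := congrArg (fun q : ℤ[X] => q.eval₂ (AdjoinRoot.of (cyclotomic p ℤ)) (tt1 p))
    (cyclotomic_prime ℤ p)
  simp only [eval₂_finsetSum, eval₂_pow, eval₂_X] at h2
  rw [← h2]
  exact h1

theorem tt1_pow : (tt1 p) ^ p = 1 := by
  have h := mul_geom_sum (tt1 p) p
  rw [geom_tt1, mul_zero] at h
  exact (sub_eq_zero.mp h.symm)

/-- Powers of the root of unity. -/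
noncomputable def pw (j : ZMod p) : RZ p := (tt1 p) ^ j.val

theorem pow_eq_pw (m : ℕ) : (tt1 p) ^ m = pw p (m : ZMod p) := by
  rw [pw, ZMod.val_natCast]
  conv_lhs => rw [← Nat.div_add_mod m p]
  rw [pow_add, pow_mul, tt1_pow, one_pow, one_mul]

theorem pw_zero : pw p 0 = 1 := by
  have := pow_eq_pw p 0
  simpa using this.symm

theorem pw_add (i j : ZMod p) : pw p (i + j) = pw p i * pw p j := by
  have h1 : pw p i * pw p j = (tt1 p) ^ (i.val + j.val) := by rw [pw, pw, pow_add]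
  rw [h1, pow_eq_pw]
  congr 1
  push_cast
  rw [ZMod.natCast_val, ZMod.natCast_val, ZMod.cast_id']
  rfl

theorem sum_zmod (f : ZMod p → RZ p) :
    ∑ i ∈ Finset.range p, f (i : ZMod p) = ∑ k : ZMod p, f k := by
  refine Finset.sum_nbij' (fun i => (i : ZMod p)) (fun k => k.val) ?_ ?_ ?_ ?_ ?_
  · intro i _; exact Finset.mem_univ _
  · intro k _; exact Finset.mem_range.mpr (ZMod.val_lt k)
  · intro i hi; exact ZMod.val_cast_of_lt (Finset.mem_range.mp hi)
  · intro k _; rw [ZMod.natCast_val, ZMod.cast_id']; rfl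
  · intro i _; rfl

theorem pw_pow (j : ZMod p) (i : ℕ) : (pw p j) ^ i = pw p (j * (i : ZMod p)) := by
  rw [pw, ← pow_mul, pow_eq_pw]
  congr 1
  push_cast
  rw [ZMod.natCast_val, ZMod.cast_id']
  rfl

theorem geom_pw (j : ZMod p) (hj : j ≠ 0) : ∑ i ∈ Finset.range p, (pw p j) ^ i = 0 := by
  have h1 : ∑ i ∈ Finset.range p, (pw p j) ^ i = ∑ k : ZMod p, pw p (j * k) := by
    rw [← sum_zmod p (fun k => pw p (j * k))]
    exact Finset.sum_congr rfl fun i _ => pw_pow p j i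
  have h2 : ∑ k : ZMod p, pw p (j * k) = ∑ k : ZMod p, pw p k :=
    Fintype.sum_equiv (Equiv.mulLeft₀ j hj) _ _ fun k => rfl
  rw [h1, h2, ← sum_zmod p (fun k => pw p k), ← geom_tt1 p]
  exact Finset.sum_congr rfl fun i _ => (pow_eq_pw p i).symm

theorem weighted_geom {A : Type*} [CommRing A] (u : A) (m : ℕ) :
    (∑ i ∈ Finset.range m, (i : A) * u ^ i) * (u - 1) =
      (m : A) * u ^ m - u * ∑ i ∈ Finset.range m, u ^ i := by
  induction m with
  | zero => simp
  | succ m ih =>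
    rw [Finset.sum_range_succ, add_mul, ih, Finset.sum_range_succ, pow_succ]
    push_cast
    ring

/-- The cofactor of `ζ^j - 1`. -/
noncomputable def sj (j : ZMod p) : RZ p := ∑ i ∈ Finset.range p, (i : RZ p) * (pw p j) ^ i

theorem sj_mul (j : ZMod p) (hj : j ≠ 0) : sj p j * (pw p j - 1) = (p : RZ p) := by
  rw [sj, weighted_geom, geom_pw p j hj, mul_zero, sub_zero, pw, ← pow_mul, mul_comm j.val, pow_mul,
    tt1_pow, one_pow, mul_one]

/-- The additive retraction `ℤ[ζ_p] → ℤ`. -/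
noncomputable def rr : RZ p →ₗ[ℤ] ℤ :=
  (Polynomial.lcoeff ℤ 0).comp (AdjoinRoot.modByMonicHom (cyclotomic.monic p ℤ))

theorem rr_int (m : ℤ) : rr p (m : RZ p) = m := by
  have h1 : ((m : ℤ) : RZ p) = AdjoinRoot.mk (cyclotomic p ℤ) (C m) := by simp
  rw [rr, LinearMap.comp_apply, h1, AdjoinRoot.modByMonicHom_mk]
  have h2 : (C m : ℤ[X]) %ₘ cyclotomic p ℤ = C m := by
    rw [Polynomial.modByMonic_eq_self_iff (cyclotomic.monic p ℤ)]
    refine lt_of_le_of_lt degree_C_le ?_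
    rw [degree_cyclotomic]
    have : 0 < p.totient := Nat.totient_pos.mpr hp.out.pos
    exact_mod_cast this
  rw [h2]
  simp

end ring

section chars

variable {n : ℕ} {G : Type} [Group G] (ρ : G →* Matrix (Fin n) (Fin n) ℤ) (p : ℕ)
  [hp : Fact p.Prime]

/-- Reduction mod `p`. -/
def rp (g : G) : Matrix (Fin n) (Fin n) (ZMod p) := (ρ g).map (Int.cast : ℤ → ZMod p)

theorem rp_mul (g h : G) : rp ρ p (g * h) = rp ρ p g * rp ρ p h := by
  rw [rp, map_mul]
  exact Matrix.map_mul (f := Int.castRingHom (ZMod p))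

theorem rp_one : rp ρ p 1 = 1 := by
  rw [rp, map_one]
  exact Matrix.map_one _ (by simp) (by simp)

/-- The nonzero characters of `(ℤ/p)^n`. -/
def Xp (_ : G →* Matrix (Fin n) (Fin n) ℤ) (p : ℕ) := {a : Fin n → ZMod p // a ≠ 0}

noncomputable instance : Fintype (Xp ρ p) := by
  haveI : NeZero p := ⟨hp.out.ne_zero⟩
  unfold Xp
  exact Fintype.ofFinite _

theorem vec_ne (g : G) (a : Fin n → ZMod p) (ha : a ≠ 0) : a ᵥ* rp ρ p g ≠ 0 := by
  intro h
  apply ha
  have h1 : (a ᵥ* rp ρ p g) ᵥ* rp ρ p g⁻¹ = a := by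
    rw [Matrix.vecMul_vecMul, ← rp_mul, mul_inv_cancel, rp_one, Matrix.vecMul_one]
  rw [← h1, h, Matrix.zero_vecMul]

noncomputable instance : MulAction G (Xp ρ p) where
  smul g a := ⟨a.1 ᵥ* rp ρ p g⁻¹, vec_ne ρ p g⁻¹ a.1 a.2⟩
  one_smul a := Subtype.ext (by
    change a.1 ᵥ* rp ρ p 1⁻¹ = a.1
    rw [inv_one, rp_one, Matrix.vecMul_one])
  mul_smul g h a := Subtype.ext (by
    change a.1 ᵥ* rp ρ p (g * h)⁻¹ = (a.1 ᵥ* rp ρ p h⁻¹) ᵥ* rp ρ p g⁻¹
    rw [Matrix.vecMul_vecMul, ← rp_mul, _root_.mul_inv_rev])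

theorem smul_val (g : G) (a : Xp ρ p) : (g • a).1 = a.1 ᵥ* rp ρ p g⁻¹ := rfl

theorem card_Xp : Fintype.card (Xp ρ p) = p ^ n - 1 := by
  have : NeZero p := ⟨hp.out.ne_zero⟩
  classical
  have h1 : Fintype.card (Xp ρ p) = Fintype.card {a : Fin n → ZMod p // a ≠ 0} :=
    Fintype.card_congr (Equiv.refl _)
  rw [h1, Fintype.card_subtype_compl, Fintype.card_subtype_eq, Fintype.card_pi]
  simp [ZMod.card]

/-- Evaluation of a character at an integral vector. -/
noncomputable def chi (a : Xp ρ p) (l : Fin n → ℤ) : RZ p :=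
  pw p (a.1 ⬝ᵥ (fun i => ((l i : ℤ) : ZMod p)))

theorem chi_zero (a : Xp ρ p) : chi ρ p a 0 = 1 := by
  rw [chi]
  have : (fun i : Fin n => (((0 : Fin n → ℤ) i : ℤ) : ZMod p)) = 0 := by funext i; simp
  rw [this, dotProduct_zero, pw_zero]

theorem chi_add (a : Xp ρ p) (l m : Fin n → ℤ) : chi ρ p a (l + m) = chi ρ p a l * chi ρ p a m := by
  rw [chi, chi, chi, ← pw_add, ← dotProduct_add]
  congr 2
  funext i
  simp

theorem chi_smul (g : G) (a : Xp ρ p) (m : Fin n → ℤ) :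
    chi ρ p (g • a) (ρ g *ᵥ m) = chi ρ p a m := by
  rw [chi, chi, smul_val]
  congr 1
  have h1 : (fun i => (((ρ g *ᵥ m) i : ℤ) : ZMod p)) = rp ρ p g *ᵥ (fun i => ((m i : ℤ) : ZMod p)) := by
    funext i
    simp only [Matrix.mulVec, dotProduct, rp, Matrix.map_apply]
    push_cast
    rfl
  rw [h1, ← Matrix.dotProduct_mulVec, Matrix.mulVec_mulVec, ← rp_mul, inv_mul_cancel, rp_one,
    Matrix.one_mulVec]

theorem exists_coord (a : Xp ρ p) : ∃ i, a.1 i ≠ 0 := by
  by_contra h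
  push Not at h
  exact a.2 (funext h)

/-- A vector on which the character is nontrivial. -/
noncomputable def xa (a : Xp ρ p) : Fin n → ℤ := Pi.single (exists_coord ρ p a).choose 1

theorem chi_xa (a : Xp ρ p) : chi ρ p a (xa ρ p a) = pw p (a.1 (exists_coord ρ p a).choose) := by
  rw [chi, xa]
  congr 1
  have : (fun i => (((Pi.single (exists_coord ρ p a).choose (1 : ℤ) : Fin n → ℤ) i : ℤ) : ZMod p)) =
      Pi.single (exists_coord ρ p a).choose 1 := by
    funext i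
    by_cases h : i = (exists_coord ρ p a).choose
    · rw [h]; simp
    · rw [Pi.single_eq_of_ne h, Pi.single_eq_of_ne h, Int.cast_zero]
  rw [this, dotProduct_single, mul_one]

/-- The cofactors. -/
noncomputable def sa (a : Xp ρ p) : RZ p := sj p (a.1 (exists_coord ρ p a).choose)

theorem sa_mul (a : Xp ρ p) : sa ρ p a * (chi ρ p a (xa ρ p a) - 1) = (p : RZ p) := by
  rw [chi_xa, sa, sj_mul p _ (exists_coord ρ p a).choose_spec]

end chars

end Pool.Agent.HLU
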