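import Pool.Agent.Lib_helper62.HL.Tw

/-!
Integral representations: the generic equivariant chain map and the equivariant family of twisted
fillings.
-/

namespace Pool.Agent.HLU

open Pool.Agent.HL Finsupp Matrix

variable {n : ℕ} {R : Type*} [CommRing R] {G : Type} [Group G]

/-- The real representation underlying an integral one. -/
noncomputable def rl (ρ : G →* Matrix (Fin n) (Fin n) ℤ) : G →* Matrix (Fin n) (Fin n) ℝ :=
  ((Int.castRingHom ℝ).mapMatrix :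
    Matrix (Fin n) (Fin n) ℤ →+* Matrix (Fin n) (Fin n) ℝ).toMonoidHom.comp ρ

theorem rl_apply (ρ : G →* Matrix (Fin n) (Fin n) ℤ) (g : G) :
    rl ρ g = (ρ g).map (Int.cast : ℤ → ℝ) := rfl

theorem rl_inv (ρ : G →* Matrix (Fin n) (Fin n) ℤ) (g : G) (y : Fin n → ℝ) :
    rl ρ g⁻¹ *ᵥ (rl ρ g *ᵥ y) = y := by
  rw [Matrix.mulVec_mulVec, ← map_mul, inv_mul_cancel, map_one, Matrix.one_mulVec]

theorem rl_lat (ρ : G →* Matrix (Fin n) (Fin n) ℤ) (g : G) (l : Fin n → ℤ) :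
    rl ρ g *ᵥ lat l = lat (ρ g *ᵥ l) := by
  funext i
  rw [rl_apply]
  simp only [Matrix.mulVec, dotProduct, lat, Matrix.map_apply]
  push_cast
  rfl

theorem rho_inv (ρ : G →* Matrix (Fin n) (Fin n) ℤ) (g : G) (l : Fin n → ℤ) :
    ρ g *ᵥ (ρ g⁻¹ *ᵥ l) = l := by
  rw [Matrix.mulVec_mulVec, ← map_mul, mul_inv_cancel, map_one, Matrix.one_mulVec]

theorem gs_rl (ρ : G →* Matrix (Fin n) (Fin n) ℤ) (g : G) {l : Fin n → ℝ} {S : Set (Fin n → ℝ)}
    (h : Gs l S) : Gs (rl ρ g *ᵥ l) ((fun y => rl ρ g *ᵥ y) '' S) :=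
  gs_image (rl ρ g⁻¹) 0 (fun y => rl ρ g *ᵥ y) (fun y => by rw [add_zero, rl_inv]) h

theorem GA_rl (ρ : G →* Matrix (Fin n) (Fin n) ℤ) (g : G) {k : ℕ} {t : Fin k → Fin n → ℝ}
    (h : t ∈ (GA k : Set (Fin k → Fin n → ℝ))) :
    (fun i => rl ρ g *ᵥ t i) ∈ (GA k : Set (Fin k → Fin n → ℝ)) := by
  intro l
  have h1 := gs_rl ρ g (h (ρ g⁻¹ *ᵥ l))
  rw [rl_lat, rho_inv] at h1
  have h3 : (Set.range fun i => rl ρ g *ᵥ t i) = (fun y => rl ρ g *ᵥ y) '' Set.range t := by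
    rw [← Set.range_comp]; rfl
  rw [h3]
  exact h1

theorem GB_rl (ρ : G →* Matrix (Fin n) (Fin n) ℤ) (g : G) {k : ℕ} {t : Fin k → Fin n → ℝ}
    (h : t ∈ (GB k : Set (Fin k → Fin n → ℝ))) :
    (fun i => rl ρ g *ᵥ t i) ∈ (GB k : Set (Fin k → Fin n → ℝ)) := by
  have h3 : (Set.range fun i => rl ρ g *ᵥ t i) = (fun y => rl ρ g *ᵥ y) '' Set.range t := by
    rw [← Set.range_comp]; rfl
  refine ⟨?_, fun l hl => ?_⟩
  · have h1 := gs_rl ρ g h.1
    rw [Matrix.mulVec_zero] at h1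
    rw [h3]
    exact h1
  · have hl' : ρ g⁻¹ *ᵥ l ≠ 0 := by
      intro h0
      apply hl
      rw [← rho_inv ρ g l, h0, Matrix.mulVec_zero]
    have h1 := gs_rl ρ g (h.2 _ hl')
    rw [rl_lat, rho_inv, Set.image_insert_eq, Matrix.mulVec_zero] at h1
    rw [h3]
    exact h1

/-- Linear maps on chains. -/
noncomputable def lmR (M : Matrix (Fin n) (Fin n) ℝ) (k : ℕ) :
    TR R (Fin n → ℝ) k →ₗ[R] TR R (Fin n → ℝ) k := tmapR (fun x => M *ᵥ x) k

theorem lmR_single (M : Matrix (Fin n) (Fin n) ℝ) (k : ℕ) (v : Fin k → Fin n → ℝ) (a : R) :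
    lmR M k (Finsupp.single v a) = Finsupp.single (fun i => M *ᵥ v i) a := by
  rw [lmR, tmapR_single]; rfl

theorem bdR_lmR (M : Matrix (Fin n) (Fin n) ℝ) (k : ℕ) (x : TR R (Fin n → ℝ) (k + 1)) :
    bdR k (lmR M (k + 1) x) = lmR M k (bdR k x) := bdR_tmapR _ _ _

theorem lmR_mul (M N : Matrix (Fin n) (Fin n) ℝ) (k : ℕ) (x : TR R (Fin n → ℝ) k) :
    lmR (M * N) k x = lmR M k (lmR N k x) := by
  rw [lmR, lmR, lmR, tmapR_comp]
  congr 2
  funext x
  simp

theorem toR_lm (M : Matrix (Fin n) (Fin n) ℝ) (k : ℕ) (x : T (Fin n → ℝ) k) :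
    toR (R := R) k (lm M k x) = lmR M k (toR k x) := toR_tmap _ _ _

theorem lmR_tr (ρ : G →* Matrix (Fin n) (Fin n) ℤ) (g : G) (m : Fin n → ℤ) (k : ℕ)
    (x : TR R (Fin n → ℝ) k) :
    lmR (rl ρ g) k (tr m k x) = tr (ρ g *ᵥ m) k (lmR (rl ρ g) k x) := by
  refine lin_ext_apply (f := (lmR (rl ρ g) k).comp (tr m k))
    (f' := (tr (ρ g *ᵥ m) k).comp (lmR (rl ρ g) k)) (fun v => ?_) x
  simp only [LinearMap.comp_apply, tr_single, lmR_single]
  congr 1
  funext i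
  rw [Matrix.mulVec_add, rl_lat]

theorem lmR_supp (M : Matrix (Fin n) (Fin n) ℝ) {k : ℕ} (P : Set (Fin k → Fin n → ℝ))
    (hP : ∀ t ∈ P, (fun i => M *ᵥ t i) ∈ P) (x : TR R (Fin n → ℝ) k)
    (hx : x ∈ Finsupp.supported R R P) : lmR M k x ∈ Finsupp.supported R R P := by
  refine map_supp _ (lmR M k) _ (fun v hv => ?_) x hx
  rw [lmR_single]
  exact Finsupp.single_mem_supported _ _ (hP v hv)

theorem lmR_Qr (ρ : G →* Matrix (Fin n) (Fin n) ℤ) (g : G) (χ χ' : (Fin n → ℤ) → R)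
    (h : ∀ m, χ' (ρ g *ᵥ m) = χ m) (k : ℕ) (z : TR R (Fin n → ℝ) k) (hz : z ∈ Qr χ k) :
    lmR (rl ρ g) k z ∈ Qr χ' k := by
  refine map_Qr χ k (lmR (rl ρ g) k) _ (fun m y => ?_) z hz
  rw [map_sub, lmR_tr, map_smul, ← h]
  exact mem_Qr _ _ _ _

section FG

theorem gs_empty (l : Fin n → ℝ) : Gs l (∅ : Set (Fin n → ℝ)) := by
  intro A hA _ hmem
  have hA' : (A : Set (Fin n → ℝ)) = ∅ := Set.subset_empty_iff.mp hA
  rw [hA', Set.image_empty, Submodule.span_empty, Submodule.mem_bot] at hmem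
  have := congrFun hmem 0
  rw [lf_zero] at this
  exact one_ne_zero this

theorem gs_zero (l : Fin n → ℝ) (hl : l ≠ 0) : Gs l ({0} : Set (Fin n → ℝ)) := by
  intro A hA _ hmem
  have h1 : lf l ∈ Submodule.span ℝ ({lf 0} : Set (Fin (n + 1) → ℝ)) := by
    refine Submodule.span_mono ?_ hmem
    rintro _ ⟨a, ha, rfl⟩
    rw [Set.mem_singleton_iff, hA ha]
  rw [Submodule.mem_span_singleton] at h1
  obtain ⟨c, hc⟩ := h1
  apply hl
  funext i
  have := congrFun hc i.succ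
  simp only [Pi.smul_apply, lf_succ, Pi.zero_apply, smul_zero] at this
  exact this.symm

theorem lat_ne (l : Fin n → ℤ) (hl : l ≠ 0) : lat l ≠ 0 := by
  intro h
  apply hl
  funext i
  have := congrFun h i
  simpa [lat] using this

theorem GB_zero (t : Fin 0 → Fin n → ℝ) : t ∈ (GB 0 : Set (Fin 0 → Fin n → ℝ)) := by
  have h : Set.range t = ∅ := Set.range_eq_empty t
  refine ⟨?_, fun l hl => ?_⟩
  · rw [h]; exact gs_empty _
  · rw [h]
    have : (insert 0 ∅ : Set (Fin n → ℝ)) = {0} := by simp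
    rw [this]
    exact gs_zero _ (lat_ne l hl)

theorem GB_off {k : ℕ} (hk : k ≤ n) {t : Fin k → Fin n → ℝ}
    (h : t ∈ (GB k : Set (Fin k → Fin n → ℝ))) : t ∈ Off n k := by
  classical
  intro h0
  have h1 : (0 : Fin n → ℝ) ∈ {y | lf y ∈ Submodule.span ℝ (lf '' Set.range t)} := by
    refine convexHull_min ?_ ?_ h0
    · intro y hy
      exact Submodule.subset_span ⟨y, hy, rfl⟩
    · intro x hx y hy a b _ _ hab
      change lf (a • x + b • y) ∈ Submodule.span ℝ (lf '' Set.range t)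
      rw [lf_combo _ _ _ _ hab]
      exact Submodule.add_mem _ (Submodule.smul_mem _ _ hx) (Submodule.smul_mem _ _ hy)
  refine h.1 (Finset.univ.image t) (by simp) (Finset.card_image_le.trans (by simpa using hk)) ?_
  rw [Finset.coe_image, Finset.coe_univ, Set.image_univ]
  exact h1

/-- The generic equivariant chain map. -/
noncomputable def FG (ρ : G →* Matrix (Fin n) (Fin n) ℤ) : (k : ℕ) → T G k →ₗ[ℤ] T (Fin n → ℝ) k
  | 0 => Finsupp.linearCombination ℤ fun _ => Finsupp.single default 1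
  | (k + 1) => Finsupp.linearCombination ℤ fun v : Fin (k + 1) → G =>
      lm (rl ρ (v 0)) (k + 1) (gf (R := ℤ) k (FG ρ k (bd k (Finsupp.single ((v 0)⁻¹ • v) 1))))

theorem FG_succ (ρ : G →* Matrix (Fin n) (Fin n) ℤ) (k : ℕ) (v : Fin (k + 1) → G) :
    FG ρ (k + 1) (Finsupp.single v 1) =
      lm (rl ρ (v 0)) (k + 1) (gf (R := ℤ) k (FG ρ k (bd k (Finsupp.single ((v 0)⁻¹ • v) 1)))) := by
  rw [FG, Finsupp.linearCombination_single, one_smul]

theorem FG_zero_single (ρ : G →* Matrix (Fin n) (Fin n) ℤ) (v : Fin 0 → G) (a : ℤ) :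
    FG ρ 0 (Finsupp.single v a) = a • Finsupp.single default 1 := by
  rw [FG, Finsupp.linearCombination_single]

theorem FG_GB (ρ : G →* Matrix (Fin n) (Fin n) ℤ) (k : ℕ) (x : T G k) :
    FG ρ k x ∈ Finsupp.supported ℤ ℤ (GB (n := n) k) := by
  induction k with
  | zero =>
    rw [Finsupp.mem_supported]
    intro v _
    exact GB_zero v
  | succ k ih =>
    induction x using Finsupp.induction_linear with
    | zero => simp
    | add x y hx hy => rw [map_add]; exact Submodule.add_mem _ hx hy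
    | single v a =>
      have h1 : Finsupp.single v a = a • Finsupp.single v (1 : ℤ) := by simp
      rw [h1, map_smul, FG_succ]
      exact Submodule.smul_mem _ _ (lmR_supp (R := ℤ) _ _ (fun t ht => GB_rl ρ (v 0) ht) _
        (gf_GB _ (ih _)))

theorem FG_equi (ρ : G →* Matrix (Fin n) (Fin n) ℤ) (k : ℕ) (g : G) (x : T G k) :
    FG ρ k (ac g k x) = lm (rl ρ g) k (FG ρ k x) := by
  refine span_ind ((FG ρ k).comp (ac g k)) ((lm (rl ρ g) k).comp (FG ρ k)) (fun v => ?_) x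
  simp only [LinearMap.comp_apply]
  rw [ac_single]
  cases k with
  | zero =>
    rw [FG_zero_single, FG_zero_single, one_smul, lm_single]
    congr 1
    exact Subsingleton.elim _ _
  | succ k =>
    rw [FG_succ, FG_succ, ← lm_mul, ← map_mul]
    have h1 : (g • v) 0 = g * v 0 := rfl
    have h2 : ((g • v) 0)⁻¹ • (g • v) = (v 0)⁻¹ • v := by
      rw [h1, _root_.mul_inv_rev, mul_smul, inv_smul_smul]
    rw [h1] at h2 ⊢
    rw [h2]

theorem FG_bd (ρ : G →* Matrix (Fin n) (Fin n) ℤ) (k : ℕ) (x : T G (k + 1)) :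
    bd k (FG ρ (k + 1) x) = FG ρ k (bd k x) := by
  induction k with
  | zero =>
    refine span_ind ((bd 0).comp (FG ρ 1)) ((FG ρ 0).comp (bd 0)) (fun v => ?_) x
    simp only [LinearMap.comp_apply]
    have h0 : ∀ y : T (Fin n → ℝ) 0, bd 0 (gf (R := ℤ) 0 y) = y := fun y => bdR_gf_zero y
    rw [FG_succ, bd_lm, h0, ← FG_equi, ← bd_ac, ac_single, smul_inv_smul]
  | succ k ih =>
    refine span_ind ((bd (k + 1)).comp (FG ρ (k + 1 + 1))) ((FG ρ (k + 1)).comp (bd (k + 1)))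
      (fun v => ?_) x
    simp only [LinearMap.comp_apply]
    have h0 : ∀ y : T (Fin n → ℝ) (k + 1), bd k y = 0 → bd (k + 1) (gf (R := ℤ) (k + 1) y) = y :=
      fun y hy => bdR_gf y hy
    rw [FG_succ, bd_lm, h0, ← FG_equi, ← bd_ac, ac_single, smul_inv_smul]
    rw [ih, bd_bd, map_zero]

theorem FG_adm (ρ : G →* Matrix (Fin n) (Fin n) ℤ) : Adm (rl ρ) (FG ρ) := by
  refine ⟨by rw [FG_zero_single, one_smul], fun k hk x => ?_, fun k _ g x => FG_equi ρ k g x,
    fun k _ x => FG_bd ρ k x⟩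
  rw [mem_KC]
  intro v hv
  exact GB_off hk ((Finsupp.mem_supported ℤ _).mp (FG_GB ρ k x) hv)

end FG

section bb

variable {X : Type*} [MulAction G X]

/-- The twisted fillings. -/
noncomputable def bb (ρ : G →* Matrix (Fin n) (Fin n) ℤ) (x : X → Fin n → ℤ) (s : X → R) (N : R) :
    (k : ℕ) → X → T G k →ₗ[ℤ] TR R (Fin n → ℝ) (k + 1)
  | 0 => fun _ => 0
  | (k + 1) => fun a => Finsupp.linearCombination ℤ fun v : Fin (k + 1) → G =>
      lmR (rl ρ (v 0)) (k + 2) (s ((v 0)⁻¹ • a) • hh (x ((v 0)⁻¹ • a)) (k + 1)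
        (N ^ (k + 1) • toR (k + 1) (FG ρ (k + 1) (Finsupp.single ((v 0)⁻¹ • v) 1)) -
          bb ρ x s N k ((v 0)⁻¹ • a) (bd k (Finsupp.single ((v 0)⁻¹ • v) 1))))

/-- The twisted cycles to be filled. -/
noncomputable def zz (ρ : G →* Matrix (Fin n) (Fin n) ℤ) (x : X → Fin n → ℤ) (s : X → R) (N : R)
    (k : ℕ) (a : X) (σ : T G (k + 1)) : TR R (Fin n → ℝ) (k + 1) :=
  N ^ (k + 1) • toR (k + 1) (FG ρ (k + 1) σ) - bb ρ x s N k a (bd k σ)

variable (ρ : G →* Matrix (Fin n) (Fin n) ℤ) (x : X → Fin n → ℤ) (s : X → R) (N : R)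

theorem bb_succ (k : ℕ) (a : X) (v : Fin (k + 1) → G) :
    bb ρ x s N (k + 1) a (Finsupp.single v 1) =
      lmR (rl ρ (v 0)) (k + 2) (s ((v 0)⁻¹ • a) • hh (x ((v 0)⁻¹ • a)) (k + 1)
        (zz ρ x s N k ((v 0)⁻¹ • a) (Finsupp.single ((v 0)⁻¹ • v) 1))) := by
  rw [bb, Finsupp.linearCombination_single, one_smul, zz]

theorem bb_equi (k : ℕ) (a : X) (g : G) (σ : T G k) :
    bb ρ x s N k (g • a) (ac g k σ) = lmR (rl ρ g) (k + 1) (bb ρ x s N k a σ) := by
  refine T_ext_apply (f := (bb ρ x s N k (g • a)).comp (ac g k))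
    (f' := ((lmR (rl ρ g) (k + 1)).restrictScalars ℤ).comp (bb ρ x s N k a)) (fun v => ?_) σ
  simp only [LinearMap.comp_apply, LinearMap.restrictScalars_apply]
  rw [ac_single]
  cases k with
  | zero => simp [bb]
  | succ k =>
    rw [bb_succ, bb_succ, ← lmR_mul, ← map_mul]
    have h1 : (g • v) 0 = g * v 0 := rfl
    have h2 : ((g • v) 0)⁻¹ • (g • v) = (v 0)⁻¹ • v := by
      rw [h1, _root_.mul_inv_rev, mul_smul, inv_smul_smul]
    have h3 : ((g • v) 0)⁻¹ • (g • a) = (v 0)⁻¹ • a := by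
      rw [h1, _root_.mul_inv_rev, mul_smul, inv_smul_smul]
    rw [h1] at h2 h3 ⊢
    rw [h2, h3]

theorem zz_equi (k : ℕ) (a : X) (g : G) (σ : T G (k + 1)) :
    zz ρ x s N k (g • a) (ac g (k + 1) σ) = lmR (rl ρ g) (k + 1) (zz ρ x s N k a σ) := by
  rw [zz, zz, FG_equi, bd_ac, bb_equi, toR_lm, map_sub, map_smul]

theorem bb_GA (k : ℕ) (a : X) (σ : T G k) :
    bb ρ x s N k a σ ∈ Finsupp.supported R R (GA (n := n) (k + 1)) := by
  induction k generalizing a with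
  | zero => simp [bb]
  | succ k ih =>
    induction σ using Finsupp.induction_linear with
    | zero => simp
    | add y z hy hz => rw [map_add]; exact Submodule.add_mem _ hy hz
    | single v c =>
      have h1 : Finsupp.single v c = c • Finsupp.single v (1 : ℤ) := by simp
      rw [h1, map_smul, bb_succ]
      refine AddSubgroup.zsmul_mem (Finsupp.supported R R (GA (n := n) (k + 1 + 1))).toAddSubgroup ?_ c
      refine lmR_supp _ _ (fun t ht => GA_rl ρ (v 0) ht) _ (Submodule.smul_mem _ _ (hh_GA _ _ _ ?_))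
      refine Submodule.sub_mem _ (Submodule.smul_mem _ _ ?_) (ih _ _)
      have h2 := toR_supp (R := R) _ _ (FG_GB ρ (k + 1) (Finsupp.single ((v 0)⁻¹ • v) 1))
      exact Finsupp.supported_mono (fun t ht => GB_sub_GA ht) h2

variable (χ : X → (Fin n → ℤ) → R) (hχ : ∀ g a m, χ (g • a) (ρ g *ᵥ m) = χ a m)
  (hs : ∀ a, s a * (χ a (x a) - 1) = N)

include hχ hs in
theorem bb_step (k : ℕ) (hA : ∀ a σ, bdR k (zz ρ x s N k a σ) ∈ Qr (χ a) k) (a : X)
    (σ : T G (k + 1)) :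
    bdR (k + 1) (bb ρ x s N (k + 1) a σ) - N • zz ρ x s N k a σ ∈ Qr (χ a) (k + 1) := by
  induction σ using Finsupp.induction_linear with
  | zero => simp [zz]
  | add y z hy hz =>
    have h1 : bdR (k + 1) (bb ρ x s N (k + 1) a (y + z)) - N • zz ρ x s N k a (y + z) =
        (bdR (k + 1) (bb ρ x s N (k + 1) a y) - N • zz ρ x s N k a y) +
        (bdR (k + 1) (bb ρ x s N (k + 1) a z) - N • zz ρ x s N k a z) := by
      simp only [zz, map_add, smul_add, smul_sub]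
      abel
    rw [h1]
    exact Submodule.add_mem _ hy hz
  | single v c =>
    have h1 : Finsupp.single v c = c • Finsupp.single v (1 : ℤ) := by simp
    have h2 : bdR (k + 1) (bb ρ x s N (k + 1) a (Finsupp.single v c)) -
        N • zz ρ x s N k a (Finsupp.single v c) =
        c • (bdR (k + 1) (bb ρ x s N (k + 1) a (Finsupp.single v 1)) -
          N • zz ρ x s N k a (Finsupp.single v 1)) := by
      rw [h1]
      simp only [zz, map_zsmul, smul_sub, smul_comm c]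
    rw [h2]
    refine AddSubgroup.zsmul_mem (Qr (χ a) (k + 1)).toAddSubgroup ?_ c
    have h3 : zz ρ x s N k a (Finsupp.single v 1) =
        lmR (rl ρ (v 0)) (k + 1) (zz ρ x s N k ((v 0)⁻¹ • a) (Finsupp.single ((v 0)⁻¹ • v) 1)) := by
      rw [← zz_equi, ac_single, smul_inv_smul, smul_inv_smul]
    rw [h3, bb_succ, bdR_lmR, ← map_smul (lmR (rl ρ (v 0)) (k + 1)) N, ← map_sub]
    refine lmR_Qr ρ (v 0) (χ ((v 0)⁻¹ • a)) (χ a) (fun m => ?_) _ _
      (tw_fill _ _ _ _ (hs _) _ _ (hA _ _))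
    have := hχ (v 0) ((v 0)⁻¹ • a) m
    rw [smul_inv_smul] at this
    exact this

include hχ hs in
theorem zz_cyc (k : ℕ) (a : X) (σ : T G (k + 1)) : bdR k (zz ρ x s N k a σ) ∈ Qr (χ a) k := by
  induction k generalizing a with
  | zero =>
    have h0 : (N ^ (0 + 1) : R) = N := by rw [zero_add, pow_one]
    rw [zz, map_sub, map_smul, h0]
    have : bb ρ x s N 0 a (bd 0 σ) = 0 := by simp [bb]
    rw [this, map_zero, sub_zero]
    exact tw_zero _ _ _ _ (hs a) _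
  | succ k ih =>
    have h1 := bb_step ρ x s N χ hχ hs k (fun a σ => ih a σ) a (bd (k + 1) σ)
    have h2 : zz ρ x s N k a (bd (k + 1) σ) = N ^ (k + 1) • toR (k + 1) (FG ρ (k + 1) (bd (k + 1) σ)) := by
      rw [zz, bd_bd, map_zero, sub_zero]
    rw [h2, smul_smul, ← pow_succ'] at h1
    have h3 : bdR (k + 1) (zz ρ x s N (k + 1) a σ) =
        -(bdR (k + 1) (bb ρ x s N (k + 1) a (bd (k + 1) σ)) -
          N ^ (k + 1 + 1) • toR (k + 1) (FG ρ (k + 1) (bd (k + 1) σ))) := by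
      rw [zz, map_sub, map_smul, ← toR_bd, FG_bd]
      abel
    rw [h3]
    exact Submodule.neg_mem _ h1

include hχ hs in
theorem bb_bd (k : ℕ) (a : X) (σ : T G (k + 1)) :
    bdR (k + 1) (bb ρ x s N (k + 1) a σ) - N • zz ρ x s N k a σ ∈ Qr (χ a) (k + 1) :=
  bb_step ρ x s N χ hχ hs k (fun a σ => zz_cyc ρ x s N χ hχ hs k a σ) a σ

end bb

end Pool.Agent.HLU
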