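import Pool.Agent.Lib_helper62.HL.ChR

/-!
General position with respect to a countable set of points.
-/

namespace Pool.Agent.HLU

open Pool.Agent.HL Finsupp MeasureTheory

variable {n : ℕ}

/-- The point `v` of `ℝ^n` as a vector of `ℝ^{n+1}` with first coordinate `1`. -/
def lf (v : Fin n → ℝ) : Fin (n + 1) → ℝ := Fin.cons 1 v

theorem lf_zero (v : Fin n → ℝ) : lf v 0 = 1 := rfl

theorem lf_succ (v : Fin n → ℝ) (i : Fin n) : lf v i.succ = v i := rfl

/-- No affine span of at most `n` points of `S` contains `l`. -/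
def Gs (l : Fin n → ℝ) (S : Set (Fin n → ℝ)) : Prop :=
  ∀ A : Finset (Fin n → ℝ), (A : Set (Fin n → ℝ)) ⊆ S → A.card ≤ n →
    lf l ∉ Submodule.span ℝ (lf '' (A : Set (Fin n → ℝ)))

theorem Gs.mono {l : Fin n → ℝ} {S S' : Set (Fin n → ℝ)} (h : Gs l S) (hS : S' ⊆ S) : Gs l S' :=
  fun A hA hc => h A (hA.trans hS) hc

theorem gs_insert {l w : Fin n → ℝ} {S : Set (Fin n → ℝ)} (h : Gs l S)
    (hw : ∀ A : Finset (Fin n → ℝ), (A : Set (Fin n → ℝ)) ⊆ S → A.card + 1 ≤ n →
      lf w ∉ Submodule.span ℝ (insert (lf l) (lf '' (A : Set (Fin n → ℝ))))) :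
    Gs l (insert w S) := by
  classical
  intro A hA hc hmem
  by_cases hwA : w ∈ A
  · have hA' : ((A.erase w : Finset (Fin n → ℝ)) : Set (Fin n → ℝ)) ⊆ S := by
      intro a ha
      rw [Finset.mem_coe, Finset.mem_erase] at ha
      rcases hA ha.2 with h1 | h1
      · exact absurd h1 ha.1
      · exact h1
    have hcard : (A.erase w).card + 1 ≤ n := by
      rw [Finset.card_erase_add_one hwA]; exact hc
    have hins : lf '' (A : Set (Fin n → ℝ)) =
        insert (lf w) (lf '' ((A.erase w : Finset (Fin n → ℝ)) : Set (Fin n → ℝ))) := by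
      rw [← Set.image_insert_eq, ← Finset.coe_insert, Finset.insert_erase hwA]
    rw [hins] at hmem
    exact hw _ hA' hcard (mem_span_insert_exchange hmem (h _ hA' (by omega)))
  · refine h A (fun a ha => ?_) hc hmem
    rcases hA ha with h1 | h1
    · exact absurd (h1 ▸ ha) hwA
    · exact h1

/-- The affine map underlying `lf`. -/
theorem lf_combo (x y : Fin n → ℝ) (a b : ℝ) (hab : a + b = 1) :
    lf (a • x + b • y) = a • lf x + b • lf y := by
  funext i
  refine Fin.cases ?_ (fun i => ?_) i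
  · simp [lf_zero, hab]
  · simp [lf_succ]

theorem lf_sub (x y : Fin n → ℝ) : lf x - lf y = Fin.cons 0 (x - y) := by
  funext i
  refine Fin.cases ?_ (fun i => ?_) i
  · simp [lf_zero]
  · simp [lf_succ]

theorem null_proper (W : Submodule ℝ (Fin (n + 1) → ℝ)) (hW : Module.finrank ℝ W < n + 1) :
    ∀ᵐ w : Fin n → ℝ, lf w ∉ W := by
  let s : AffineSubspace ℝ (Fin n → ℝ) :=
    { carrier := {w | lf w ∈ W}
      smul_vsub_vadd_mem' := by
        intro c p1 p2 p3 h1 h2 h3
        change lf (c • (p1 - p2) + p3) ∈ W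
        have : lf (c • (p1 - p2) + p3) = c • (lf p1 - lf p2) + lf p3 := by
          funext i
          refine Fin.cases ?_ (fun i => ?_) i
          · simp [lf_zero]
          · simp [lf_succ]
        rw [this]
        exact W.add_mem (W.smul_mem _ (W.sub_mem h1 h2)) h3 }
  have hs : s ≠ ⊤ := by
    intro htop
    have hall : ∀ w : Fin n → ℝ, lf w ∈ W := by
      intro w
      have : w ∈ s := by rw [htop]; exact AffineSubspace.mem_top ℝ _ w
      exact this
    have hW' : W = ⊤ := by
      rw [eq_top_iff]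
      intro y _
      have : y = y 0 • lf (0 : Fin n → ℝ) + (lf (Fin.tail y) - lf 0) := by
        funext i
        refine Fin.cases ?_ (fun i => ?_) i
        · simp [lf_zero]
        · simp [lf_succ, Fin.tail]
      rw [this]
      exact W.add_mem (W.smul_mem _ (hall 0)) (W.sub_mem (hall _) (hall 0))
    rw [hW', finrank_top, Module.finrank_fin_fun] at hW
    exact lt_irrefl _ hW
  have h := Measure.addHaar_affineSubspace (volume : Measure (Fin n → ℝ)) s hs
  rw [ae_iff]
  simp only [not_not]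
  exact h

theorem null_proper' (W : Submodule ℝ (Fin n → ℝ)) (hW : Module.finrank ℝ W < n) :
    ∀ᵐ w : Fin n → ℝ, w ∉ W := by
  have hs : W ≠ ⊤ := by
    intro htop
    rw [htop, finrank_top, Module.finrank_fin_fun] at hW
    exact lt_irrefl _ hW
  have h := Measure.addHaar_submodule (volume : Measure (Fin n → ℝ)) W hs
  rw [ae_iff]
  simp only [not_not]
  exact h

theorem rank_image (A : Finset (Fin n → ℝ)) (l : Fin n → ℝ) (hA : A.card + 1 ≤ n) :
    Module.finrank ℝ (Submodule.span ℝ (insert (lf l) (lf '' (A : Set (Fin n → ℝ))))) < n + 1 := by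
  classical
  have h1 : insert (lf l) (lf '' (A : Set (Fin n → ℝ))) =
      ((insert (lf l) (A.image lf) : Finset (Fin (n + 1) → ℝ)) : Set (Fin (n + 1) → ℝ)) := by
    rw [Finset.coe_insert, Finset.coe_image]
  rw [h1]
  have h2 := finrank_span_finset_le_card (R := ℝ) (insert (lf l) (A.image lf))
  have h3 := Finset.card_insert_le (lf l) (A.image lf)
  have h4 := Finset.card_image_le (s := A) (f := lf)
  simp only [Set.finrank] at h2
  omega

theorem rank_fin (A : Finset (Fin n → ℝ)) (hA : A.card + 1 ≤ n) :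
    Module.finrank ℝ (Submodule.span ℝ (A : Set (Fin n → ℝ))) < n := by
  have h2 := finrank_span_finset_le_card (R := ℝ) A
  simp only [Set.finrank] at h2
  omega

theorem countable_sub (S : Set (Fin n → ℝ)) (hS : S.Finite) :
    ({A : Finset (Fin n → ℝ) | (A : Set (Fin n → ℝ)) ⊆ S}).Countable := by
  have h : ({A : Finset (Fin n → ℝ) | (A : Set (Fin n → ℝ)) ⊆ S}) ⊆
      (hS.toFinset.powerset : Set (Finset (Fin n → ℝ))) := by
    intro A hA
    rw [Finset.mem_coe, Finset.mem_powerset]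
    intro a ha
    rw [Set.Finite.mem_toFinset]
    exact hA ha
  exact (Finset.countable_toSet _).mono h

/-- For almost all `w`, coning with `w` preserves general position with respect to `l`. -/
theorem ae_gs_insert (l : Fin n → ℝ) (S : Set (Fin n → ℝ)) (hS : S.Finite) :
    ∀ᵐ w : Fin n → ℝ, Gs l S → Gs l (insert w S) := by
  have hcount := countable_sub S hS
  have h : ∀ᵐ w : Fin n → ℝ, ∀ A ∈ {A : Finset (Fin n → ℝ) | (A : Set (Fin n → ℝ)) ⊆ S},
      A.card + 1 ≤ n → lf w ∉ Submodule.span ℝ (insert (lf l) (lf '' (A : Set (Fin n → ℝ)))) := by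
    rw [ae_ball_iff hcount]
    intro A _
    by_cases hA : A.card + 1 ≤ n
    · filter_upwards [null_proper _ (rank_image A l hA)] with w hw _
      exact hw
    · filter_upwards with w h
      exact absurd h hA
  filter_upwards [h] with w hw hgs
  exact gs_insert hgs fun A hA hc => hw A hA hc

theorem ae_gen1 (S : Set (Fin n → ℝ)) (hS : S.Finite) :
    ∀ᵐ w : Fin n → ℝ, ∀ A : Finset (Fin n → ℝ), (A : Set (Fin n → ℝ)) ⊆ S → A.card + 1 ≤ n →
      w ∉ Submodule.span ℝ (A : Set (Fin n → ℝ)) := by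
  have hcount := countable_sub S hS
  have h : ∀ᵐ w : Fin n → ℝ, ∀ A ∈ {A : Finset (Fin n → ℝ) | (A : Set (Fin n → ℝ)) ⊆ S},
      A.card + 1 ≤ n → w ∉ Submodule.span ℝ (A : Set (Fin n → ℝ)) := by
    rw [ae_ball_iff hcount]
    intro A _
    by_cases hA : A.card + 1 ≤ n
    · filter_upwards [null_proper' _ (rank_fin A hA)] with w hw _
      exact hw
    · filter_upwards with w h
      exact absurd h hA
  filter_upwards [h] with w hw A hA hc
  exact hw A hA hc

/-- The lattice points. -/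
def lat (l : Fin n → ℤ) : Fin n → ℝ := fun i => (l i : ℝ)

/-- All lattice points are in general position with respect to `S`. -/
def GA (k : ℕ) : Set (Fin k → Fin n → ℝ) := {t | ∀ l : Fin n → ℤ, Gs (lat l) (Set.range t)}

/-- The stronger general position: the origin with respect to `S` and the other lattice points
with respect to `S` and the origin. -/
def GB (k : ℕ) : Set (Fin k → Fin n → ℝ) :=
  {t | Gs 0 (Set.range t) ∧ ∀ l : Fin n → ℤ, l ≠ 0 → Gs (lat l) (insert 0 (Set.range t))}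

theorem lat_zero : lat (0 : Fin n → ℤ) = 0 := by
  funext i; simp [lat]

theorem GB_sub_GA {k : ℕ} {t : Fin k → Fin n → ℝ} (h : t ∈ (GB k : Set (Fin k → Fin n → ℝ))) :
    t ∈ (GA k : Set (Fin k → Fin n → ℝ)) := by
  intro l
  by_cases hl : l = 0
  · rw [hl, lat_zero]; exact h.1
  · exact (h.2 l hl).mono (Set.subset_insert _ _)

/-- A vector in general position with respect to finitely many finite sets of points. -/
def CP (w : Fin n → ℝ) (S : Set (Fin n → ℝ)) : Prop :=
  (∀ l : Fin n → ℤ, Gs (lat l) S → Gs (lat l) (insert w S)) ∧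
  (∀ l : Fin n → ℤ, Gs (lat l) (insert 0 S) → Gs (lat l) (insert w (insert 0 S))) ∧
  (∀ A : Finset (Fin n → ℝ), (A : Set (Fin n → ℝ)) ⊆ S → A.card + 1 ≤ n →
      w ∉ Submodule.span ℝ (A : Set (Fin n → ℝ)))

theorem exists_CP {ι : Type*} [Finite ι] (S : ι → Set (Fin n → ℝ)) (hS : ∀ i, (S i).Finite) :
    ∃ w : Fin n → ℝ, ∀ i, CP w (S i) := by
  have h : ∀ᵐ w : Fin n → ℝ, ∀ i, CP w (S i) := by
    rw [ae_all_iff]
    intro i
    have h1 : ∀ᵐ w : Fin n → ℝ, ∀ l : Fin n → ℤ, Gs (lat l) (S i) → Gs (lat l) (insert w (S i)) := by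
      rw [ae_all_iff]
      intro l
      exact ae_gs_insert _ _ (hS i)
    have h2 : ∀ᵐ w : Fin n → ℝ, ∀ l : Fin n → ℤ, Gs (lat l) (insert 0 (S i)) →
        Gs (lat l) (insert w (insert 0 (S i))) := by
      rw [ae_all_iff]
      intro l
      exact ae_gs_insert _ _ ((hS i).insert 0)
    filter_upwards [h1, h2, ae_gen1 _ (hS i)] with w a b c
    exact ⟨a, b, c⟩
  exact h.exists

theorem GA_face {k m : ℕ} {t : Fin k → Fin n → ℝ} (h : t ∈ (GA k : Set (Fin k → Fin n → ℝ)))
    (f : Fin m → Fin k) : t ∘ f ∈ (GA m : Set (Fin m → Fin n → ℝ)) :=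
  fun l => (h l).mono (Set.range_comp_subset_range _ _)

theorem GB_face {k m : ℕ} {t : Fin k → Fin n → ℝ} (h : t ∈ (GB k : Set (Fin k → Fin n → ℝ)))
    (f : Fin m → Fin k) : t ∘ f ∈ (GB m : Set (Fin m → Fin n → ℝ)) :=
  ⟨h.1.mono (Set.range_comp_subset_range _ _),
    fun l hl => (h.2 l hl).mono (Set.insert_subset_insert (Set.range_comp_subset_range _ _))⟩

theorem GA_cons {k : ℕ} {t : Fin k → Fin n → ℝ} (h : t ∈ (GA k : Set (Fin k → Fin n → ℝ)))
    {w : Fin n → ℝ} (hw : CP w (Set.range t)) :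
    (Fin.cons w t : Fin (k + 1) → Fin n → ℝ) ∈ (GA (k + 1) : Set (Fin (k + 1) → Fin n → ℝ)) := by
  intro l
  rw [Fin.range_cons]
  exact hw.1 l (h l)

theorem GB_cons {k : ℕ} {t : Fin k → Fin n → ℝ} (h : t ∈ (GB k : Set (Fin k → Fin n → ℝ)))
    {w : Fin n → ℝ} (hw : CP w (Set.range t)) :
    (Fin.cons w t : Fin (k + 1) → Fin n → ℝ) ∈ (GB (k + 1) : Set (Fin (k + 1) → Fin n → ℝ)) := by
  refine ⟨?_, fun l hl => ?_⟩
  · rw [Fin.range_cons]
    have := hw.1 0
    rw [lat_zero] at this
    exact this h.1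
  · rw [Fin.range_cons, Set.insert_comm]
    exact hw.2.1 l (h.2 l hl)

end Pool.Agent.HLU
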