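import Pool.Agent.Lib_helper62.HL.Gn

/-!
Generic cones, translations, the translation homotopy and twisted cycles.
-/

namespace Pool.Agent.HLU

open Pool.Agent.HL Finsupp Matrix

variable {n : ℕ} {R : Type*} [CommRing R]

section gen

/-- A generic cone point for a chain. -/
noncomputable def cw {k : ℕ} (x : TR R (Fin n → ℝ) k) : Fin n → ℝ :=
  (exists_CP (ι := x.support) (fun t => Set.range t.1) (fun t => Set.finite_range t.1)).choose

theorem cw_spec {k : ℕ} (x : TR R (Fin n → ℝ) k) (t : Fin k → Fin n → ℝ) (ht : t ∈ x.support) :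
    CP (cw x) (Set.range t) :=
  (exists_CP (ι := x.support) (fun t => Set.range t.1)
    (fun t => Set.finite_range t.1)).choose_spec ⟨t, ht⟩

/-- The cone from the generic cone point. -/
noncomputable def gf (k : ℕ) (x : TR R (Fin n → ℝ) k) : TR R (Fin n → ℝ) (k + 1) :=
  coneR (cw x) k x

theorem gf_supp {k : ℕ} (P : Set (Fin k → Fin n → ℝ)) (P' : Set (Fin (k + 1) → Fin n → ℝ))
    (hP : ∀ t ∈ P, ∀ w, CP w (Set.range t) → (Fin.cons w t : Fin (k + 1) → Fin n → ℝ) ∈ P')
    (x : TR R (Fin n → ℝ) k) (hx : x ∈ Finsupp.supported R R P) :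
    gf k x ∈ Finsupp.supported R R P' := by
  classical
  rw [Finsupp.mem_supported] at hx ⊢
  intro v hv
  have h1 : v ∈ x.support.image (fun u => (Fin.cons (cw x) u : Fin (k + 1) → Fin n → ℝ)) :=
    Finsupp.mapDomain_support hv
  rw [Finset.mem_image] at h1
  obtain ⟨u, hu, rfl⟩ := h1
  exact hP u (hx hu) _ (cw_spec x u hu)

theorem gf_GA {k : ℕ} (x : TR R (Fin n → ℝ) k) (hx : x ∈ Finsupp.supported R R (GA (n := n) k)) :
    gf k x ∈ Finsupp.supported R R (GA (n := n) (k + 1)) :=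
  gf_supp _ _ (fun _ ht _ hw => GA_cons ht hw) x hx

theorem gf_GB {k : ℕ} (x : TR R (Fin n → ℝ) k) (hx : x ∈ Finsupp.supported R R (GB (n := n) k)) :
    gf k x ∈ Finsupp.supported R R (GB (n := n) (k + 1)) :=
  gf_supp _ _ (fun _ ht _ hw => GB_cons ht hw) x hx

theorem bdR_gf {k : ℕ} (x : TR R (Fin n → ℝ) (k + 1)) (hx : bdR k x = 0) :
    bdR (k + 1) (gf (k + 1) x) = x := by
  rw [gf, bdR_coneR, hx, map_zero, sub_zero]

theorem bdR_cone_zero {X : Type*} (w : X) (x : TR R X 0) : bdR 0 (coneR w 0 x) = x := by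
  refine lin_ext_apply (f := (bdR 0).comp (coneR w 0)) (f' := LinearMap.id)
    (fun v => ?_) x
  simp only [LinearMap.comp_apply, coneR_single, bdR_single, LinearMap.id_apply]
  rw [Fin.sum_univ_succ, Finset.univ_eq_empty, Finset.sum_empty, add_zero]
  simp only [Fin.val_zero, pow_zero]
  congr 1

theorem bdR_gf_zero (x : TR R (Fin n → ℝ) 0) : bdR 0 (gf 0 x) = x := bdR_cone_zero _ _

theorem bdR_GA {k : ℕ} (x : TR R (Fin n → ℝ) (k + 1))
    (hx : x ∈ Finsupp.supported R R (GA (n := n) (k + 1))) :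
    bdR k x ∈ Finsupp.supported R R (GA (n := n) k) := by
  refine map_supp _ (bdR k) _ (fun v hv => ?_) x hx
  rw [bdR_single]
  exact Submodule.sum_mem _ fun i _ => Finsupp.single_mem_supported _ _ (GA_face hv _)

theorem bdR_GB {k : ℕ} (x : TR R (Fin n → ℝ) (k + 1))
    (hx : x ∈ Finsupp.supported R R (GB (n := n) (k + 1))) :
    bdR k x ∈ Finsupp.supported R R (GB (n := n) k) := by
  refine map_supp _ (bdR k) _ (fun v hv => ?_) x hx
  rw [bdR_single]
  exact Submodule.sum_mem _ fun i _ => Finsupp.single_mem_supported _ _ (GB_face hv _)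

/-- Affine images. -/
theorem gs_image (N : Matrix (Fin n) (Fin n) ℝ) (c : Fin n → ℝ) (f : (Fin n → ℝ) → (Fin n → ℝ))
    (hf : ∀ y, N *ᵥ (f y) + c = y) {l : Fin n → ℝ} {S : Set (Fin n → ℝ)} (h : Gs l S) :
    Gs (f l) (f '' S) := by
  classical
  intro A hA hc hmem
  let Φ : (Fin (n + 1) → ℝ) →ₗ[ℝ] (Fin (n + 1) → ℝ) :=
    { toFun := fun y => Fin.cons (y 0) (N *ᵥ (Fin.tail y) + y 0 • c)
      map_add' := by
        intro x y
        funext i
        refine Fin.cases ?_ (fun i => ?_) i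
        · simp
        · have : Fin.tail (x + y) = Fin.tail x + Fin.tail y := rfl
          simp [this, Matrix.mulVec_add]
          ring
      map_smul' := by
        intro a y
        funext i
        refine Fin.cases ?_ (fun i => ?_) i
        · simp
        · have : Fin.tail (a • y) = a • Fin.tail y := rfl
          simp [this, Matrix.mulVec_smul]
          ring }
  have hΦ : ∀ y, Φ (lf y) = lf (N *ᵥ y + c) := by
    intro y
    change (Fin.cons ((lf y) 0) (N *ᵥ (Fin.tail (lf y)) + (lf y) 0 • c) : Fin (n + 1) → ℝ) = _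
    rw [lf_zero, one_smul]
    rfl
  refine h (A.image (fun y => N *ᵥ y + c)) ?_ (Finset.card_image_le.trans hc) ?_
  · intro y hy
    rw [Finset.coe_image] at hy
    obtain ⟨z, hz, rfl⟩ := hy
    obtain ⟨s, hs, rfl⟩ := hA hz
    change N *ᵥ (f s) + c ∈ S
    rw [hf]; exact hs
  · have h1 := Submodule.mem_map_of_mem (f := Φ) hmem
    rw [Submodule.map_span, hΦ, hf, Set.image_image] at h1
    simp only [hΦ] at h1
    rw [Finset.coe_image, Set.image_image]
    exact h1

theorem lat_add (l m : Fin n → ℤ) : lat (l + m) = lat l + lat m := by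
  funext i; simp [lat]

theorem lat_sub (l m : Fin n → ℤ) : lat (l - m) = lat l - lat m := by
  funext i; simp [lat]

/-- Translation of chains by a lattice vector. -/
noncomputable def tr (m : Fin n → ℤ) (k : ℕ) : TR R (Fin n → ℝ) k →ₗ[R] TR R (Fin n → ℝ) k :=
  tmapR (fun y => y + lat m) k

theorem tr_single (m : Fin n → ℤ) (k : ℕ) (v : Fin k → Fin n → ℝ) (a : R) :
    tr m k (Finsupp.single v a) = Finsupp.single (fun i => v i + lat m) a := by
  rw [tr, tmapR_single]; rfl

theorem bdR_tr (m : Fin n → ℤ) (k : ℕ) (x : TR R (Fin n → ℝ) (k + 1)) :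
    bdR k (tr m (k + 1) x) = tr m k (bdR k x) := bdR_tmapR _ _ _

theorem tr_zero_deg (m : Fin n → ℤ) (x : TR R (Fin n → ℝ) 0) : tr m 0 x = x := by
  refine lin_ext_apply (f := tr m 0) (f' := LinearMap.id) (fun v => ?_) x
  rw [tr_single]
  simp only [LinearMap.id_apply]
  congr 1
  exact Subsingleton.elim _ _

theorem tr_tr (l m : Fin n → ℤ) (k : ℕ) (x : TR R (Fin n → ℝ) k) :
    tr l k (tr m k x) = tr (l + m) k x := by
  rw [tr, tr, tr, tmapR_comp]
  congr 2
  funext y
  simp only [Function.comp_apply]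
  rw [lat_add, add_assoc, add_comm (lat m)]

theorem tr_comm (l m : Fin n → ℤ) (k : ℕ) (x : TR R (Fin n → ℝ) k) :
    tr l k (tr m k x) = tr m k (tr l k x) := by
  rw [tr_tr, tr_tr, add_comm]

theorem GA_tr (m : Fin n → ℤ) {k : ℕ} {t : Fin k → Fin n → ℝ}
    (h : t ∈ (GA k : Set (Fin k → Fin n → ℝ))) :
    (fun i => t i + lat m) ∈ (GA k : Set (Fin k → Fin n → ℝ)) := by
  intro l
  have h1 := gs_image 1 (-lat m) (fun y => y + lat m) (fun y => by simp) (h (l - m))
  have h2 : lat (l - m) + lat m = lat l := by rw [lat_sub]; abel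
  simp only [h2] at h1
  have h3 : (Set.range fun i => t i + lat m) = (fun y => y + lat m) '' Set.range t := by
    rw [← Set.range_comp]; rfl
  rw [h3]
  exact h1

theorem tr_GA (m : Fin n → ℤ) {k : ℕ} (x : TR R (Fin n → ℝ) k)
    (hx : x ∈ Finsupp.supported R R (GA (n := n) k)) :
    tr m k x ∈ Finsupp.supported R R (GA (n := n) k) := by
  refine map_supp _ (tr m k) _ (fun v hv => ?_) x hx
  rw [tr_single]
  exact Finsupp.single_mem_supported _ _ (GA_tr m hv)

end gen

section homotopy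

/-- Integral part of a vector. -/
noncomputable def fl (y : Fin n → ℝ) : Fin n → ℤ := fun i => ⌊y i⌋

theorem fl_add (y : Fin n → ℝ) (m : Fin n → ℤ) : fl (y + lat m) = fl y + m := by
  funext i
  simp [fl, lat]

/-- The homotopy between the identity and the translation by `x`. -/
noncomputable def hh (x : Fin n → ℤ) : (k : ℕ) → TR R (Fin n → ℝ) k →ₗ[R] TR R (Fin n → ℝ) (k + 1)
  | 0 => 0
  | (k + 1) => Finsupp.linearCombination R fun v : Fin (k + 1) → Fin n → ℝ =>
      tr (fl (v 0)) (k + 2) (gf (k + 1)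
        (tr x (k + 1) (Finsupp.single (fun i => v i - lat (fl (v 0))) 1) -
          Finsupp.single (fun i => v i - lat (fl (v 0))) 1 -
          hh x k (bdR k (Finsupp.single (fun i => v i - lat (fl (v 0))) 1))))

theorem hh_succ (x : Fin n → ℤ) (k : ℕ) (v : Fin (k + 1) → Fin n → ℝ) :
    hh x (k + 1) (Finsupp.single v (1 : R)) =
      tr (fl (v 0)) (k + 2) (gf (k + 1)
        (tr x (k + 1) (Finsupp.single (fun i => v i - lat (fl (v 0))) 1) -
          Finsupp.single (fun i => v i - lat (fl (v 0))) 1 -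
          hh x k (bdR k (Finsupp.single (fun i => v i - lat (fl (v 0))) 1)))) := by
  rw [hh, Finsupp.linearCombination_single, one_smul]

theorem hh_tr (x m : Fin n → ℤ) (k : ℕ) (y : TR R (Fin n → ℝ) k) :
    hh x k (tr m k y) = tr m (k + 1) (hh x k y) := by
  refine lin_ext_apply (f := (hh x k).comp (tr m k)) (f' := (tr m (k + 1)).comp (hh x k))
    (fun v => ?_) y
  simp only [LinearMap.comp_apply]
  rw [tr_single]
  cases k with
  | zero => simp [hh]
  | succ k =>
    rw [hh_succ, hh_succ, fl_add, tr_tr, add_comm m]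
    have h1 : (fun i => v i + lat m - lat (fl (v 0) + m)) = (fun i => v i - lat (fl (v 0))) := by
      funext i
      rw [lat_add]
      abel
    rw [h1]

theorem tr_back (k : ℕ) (v : Fin (k + 1) → Fin n → ℝ) :
    tr (fl (v 0)) (k + 1) (Finsupp.single (fun i => v i - lat (fl (v 0))) (1 : R)) =
      Finsupp.single v 1 := by
  rw [tr_single]
  congr 1
  funext i
  rw [sub_add_cancel]

theorem hh_bd (x : Fin n → ℤ) (k : ℕ) (y : TR R (Fin n → ℝ) (k + 1)) :
    bdR (k + 1) (hh x (k + 1) y) = tr x (k + 1) y - y - hh x k (bdR k y) := by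
  induction k with
  | zero =>
    refine lin_ext_apply (f := (bdR 1).comp (hh x 1))
      (f' := tr x 1 - LinearMap.id - (hh x 0).comp (bdR 0)) (fun v => ?_) y
    simp only [LinearMap.comp_apply, LinearMap.sub_apply, LinearMap.id_apply]
    rw [hh_succ, bdR_tr, bdR_gf, map_sub, map_sub, tr_comm, ← hh_tr, ← bdR_tr, tr_back]
    · rw [map_sub, map_sub, bdR_tr, tr_zero_deg, sub_self]
      simp [hh]
  | succ k ih =>
    refine lin_ext_apply (f := (bdR (k + 2)).comp (hh x (k + 2)))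
      (f' := tr x (k + 2) - LinearMap.id - (hh x (k + 1)).comp (bdR (k + 1))) (fun v => ?_) y
    simp only [LinearMap.comp_apply, LinearMap.sub_apply, LinearMap.id_apply]
    rw [hh_succ, bdR_tr, bdR_gf, map_sub, map_sub, tr_comm, ← hh_tr, ← bdR_tr, tr_back]
    · rw [map_sub, map_sub, bdR_tr, ih, bdR_bdR, map_zero, sub_zero, sub_self]

theorem hh_GA (x : Fin n → ℤ) (k : ℕ) (y : TR R (Fin n → ℝ) k)
    (hy : y ∈ Finsupp.supported R R (GA (n := n) k)) :
    hh x k y ∈ Finsupp.supported R R (GA (n := n) (k + 1)) := by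
  induction k with
  | zero => simp [hh]
  | succ k ih =>
    refine map_supp _ (hh x (k + 1)) _ (fun v hv => ?_) y hy
    rw [hh_succ]
    have h1 : Finsupp.single (fun i => v i - lat (fl (v 0))) (1 : R) ∈
        Finsupp.supported R R (GA (n := n) (k + 1)) := by
      refine Finsupp.single_mem_supported _ _ ?_
      have := GA_tr (-fl (v 0)) hv
      have h2 : lat (-fl (v 0)) = - lat (fl (v 0)) := by funext i; simp [lat]
      simp only [h2, ← sub_eq_add_neg] at this
      exact this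
    exact tr_GA _ _ (gf_GA _ (Submodule.sub_mem _ (Submodule.sub_mem _ (tr_GA _ _ h1) h1)
      (ih _ (bdR_GA _ h1))))

end homotopy

section twisted

/-- The twisted relations. -/
noncomputable def Qr (χ : (Fin n → ℤ) → R) (k : ℕ) : Submodule R (TR R (Fin n → ℝ) k) :=
  Submodule.span R (Set.range fun p : (Fin n → ℤ) × TR R (Fin n → ℝ) k =>
    tr p.1 k p.2 - χ p.1 • p.2)

theorem mem_Qr (χ : (Fin n → ℤ) → R) (k : ℕ) (m : Fin n → ℤ) (y : TR R (Fin n → ℝ) k) :
    tr m k y - χ m • y ∈ Qr χ k := Submodule.subset_span ⟨(m, y), rfl⟩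

theorem map_Qr (χ : (Fin n → ℤ) → R) (k : ℕ) {M : Type*} [AddCommGroup M] [Module R M]
    (f : TR R (Fin n → ℝ) k →ₗ[R] M) (S : Submodule R M)
    (h : ∀ m y, f (tr m k y - χ m • y) ∈ S) (z : TR R (Fin n → ℝ) k) (hz : z ∈ Qr χ k) :
    f z ∈ S := by
  have h1 : Qr χ k ≤ S.comap f := by
    rw [Qr, Submodule.span_le]
    rintro _ ⟨p, rfl⟩
    exact h p.1 p.2
  exact h1 hz

theorem bd_Qr (χ : (Fin n → ℤ) → R) (k : ℕ) (z : TR R (Fin n → ℝ) (k + 1))
    (hz : z ∈ Qr χ (k + 1)) : bdR k z ∈ Qr χ k := by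
  refine map_Qr χ (k + 1) (bdR k) _ (fun m y => ?_) z hz
  rw [map_sub, bdR_tr, map_smul]
  exact mem_Qr _ _ _ _

theorem hh_Qr (χ : (Fin n → ℤ) → R) (x : Fin n → ℤ) (k : ℕ) (z : TR R (Fin n → ℝ) k)
    (hz : z ∈ Qr χ k) : hh x k z ∈ Qr χ (k + 1) := by
  refine map_Qr χ k (hh x k) _ (fun m y => ?_) z hz
  rw [map_sub, hh_tr, map_smul]
  exact mem_Qr _ _ _ _

/-- Twisted cycles are twisted boundaries after multiplication by `N`. -/
theorem tw_fill (χ : (Fin n → ℤ) → R) (x : Fin n → ℤ) (s N : R) (hs : s * (χ x - 1) = N) (k : ℕ)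
    (z : TR R (Fin n → ℝ) (k + 1)) (hz : bdR k z ∈ Qr χ k) :
    bdR (k + 1) (s • hh x (k + 1) z) - N • z ∈ Qr χ (k + 1) := by
  have h1 : bdR (k + 1) (s • hh x (k + 1) z) - N • z =
      s • (tr x (k + 1) z - χ x • z) - s • hh x k (bdR k z) := by
    rw [map_smul, hh_bd, ← hs, smul_sub, smul_sub, smul_sub, mul_smul, sub_smul, one_smul, smul_sub]
    abel
  rw [h1]
  exact Submodule.sub_mem _ (Submodule.smul_mem _ _ (mem_Qr _ _ _ _))
    (Submodule.smul_mem _ _ (hh_Qr _ _ _ _ hz))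

theorem tw_zero (χ : (Fin n → ℤ) → R) (x : Fin n → ℤ) (s N : R) (hs : s * (χ x - 1) = N)
    (z : TR R (Fin n → ℝ) 0) : N • z ∈ Qr χ 0 := by
  have h1 : N • z = (-s) • (tr x 0 z - χ x • z) := by
    rw [tr_zero_deg, ← hs, mul_smul, sub_smul, one_smul, neg_smul, smul_sub, smul_sub]
    abel
  rw [h1]
  exact Submodule.smul_mem _ _ (mem_Qr _ _ _ _)

end twisted

end Pool.Agent.HLU
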