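import Pool.Agent.Lib_helper62.HL.Cnt
import Pool.Agent.Lib_helper43.HL.Hodge

/-!
The upper bound: the Euler class of an integral representation is killed by
`p ^ (n + 2) * (p ^ n - 1)` for every prime `p`.
-/

namespace Pool.Agent.HLU

open Pool.Agent.HL Finsupp Matrix CategoryTheory

variable {R : Type*} [CommRing R] {G : Type} [Group G]

theorem CP.gen1 {n : ℕ} {q : Fin (n + 1) → ℝ} {v : Fin (n + 1) → Fin (n + 1) → ℝ}
    (h : CP q (Set.range v)) : Gen1 (-q) v := by
  classical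
  intro i hmem
  rw [Submodule.neg_mem_iff] at hmem
  refine h.2.2 ((Finset.univ.filter fun k => k ≠ i).image v) ?_ ?_ ?_
  · intro y hy
    rw [Finset.coe_image] at hy
    obtain ⟨k, _, rfl⟩ := hy
    exact ⟨k, rfl⟩
  · have h1 := Finset.card_image_le (s := Finset.univ.filter fun k : Fin (n + 1) => k ≠ i) (f := v)
    have h2 := ncard_omit n i
    have h3 : {k : Fin (n + 1) | k ≠ i}.ncard =
        (Finset.univ.filter fun k : Fin (n + 1) => k ≠ i).card := by
      rw [← Set.ncard_coe_finset]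
      congr 1
      ext k; simp
    omega
  · rw [Finset.coe_image]
    have h3 : ((Finset.univ.filter fun k : Fin (n + 1) => k ≠ i : Finset (Fin (n + 1))) :
        Set (Fin (n + 1))) = {k | k ≠ i} := by
      ext k; simp
    rw [h3]
    exact hmem

/-- Generic cones versus the cone from the origin. -/
theorem J_cone {n : ℕ} (c : T (Fin (n + 1) → ℝ) (n + 1))
    (hc : c ∈ Finsupp.supported ℤ ℤ (GB (n := n + 1) (n + 1))) (hb : bd n c = 0) :
    J (coneR (cw (R := ℤ) c) (n + 1) (toR (R := R) (n + 1) c)) =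
      J (coneR 0 (n + 1) (toR (n + 1) c)) +
        Finsupp.single (0 : Fin (n + 1) → ℤ) ((wind c : ℤ) : R) := by
  classical
  set q := cw (R := ℤ) c with hq
  have hKC : c ∈ KC (n + 1) (n + 1) := by
    rw [mem_KC]
    intro v hv
    exact GB_off le_rfl ((Finsupp.mem_supported ℤ _).mp hc hv)
  refine Finsupp.ext fun l => ?_
  rw [Finsupp.add_apply]
  by_cases hl : l = 0
  · subst hl
    rw [Finsupp.single_eq_same]
    have h0 : (J (coneR 0 (n + 1) (toR (R := R) (n + 1) c))) (0 : Fin (n + 1) → ℤ) = 0 := by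
      refine T_ext_apply (f := ((ev (R := R) 0).comp (coneR 0 (n + 1))).restrictScalars ℤ ∘ₗ
        toR (n + 1)) (f' := 0) (fun v => ?_) c
      simp only [LinearMap.comp_apply, LinearMap.restrictScalars_apply, LinearMap.zero_apply]
      rw [toR_single, coneR_single, ev_apply, J_single_apply, io_cone_zero (Nat.succ_pos n)]
      simp
    have h1 : (J (coneR q (n + 1) (toR (R := R) (n + 1) c))) (0 : Fin (n + 1) → ℤ) =
        ((windAt (-q) c : ℤ) : R) := by
      refine T_ext_apply (f := ((ev (R := R) 0).comp (coneR q (n + 1))).restrictScalars ℤ ∘ₗ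
        toR (n + 1)) (f' := (Algebra.linearMap ℤ R) ∘ₗ windAt (-q)) (fun v => ?_) c
      simp only [LinearMap.comp_apply, LinearMap.restrictScalars_apply]
      rw [toR_single, coneR_single, ev_apply, J_single_apply, io_cone, windAt_single]
      simp
    rw [h0, h1, zero_add, wind_eq n c hKC hb (-q) ?_]
    intro v hv
    exact (cw_spec (R := ℤ) c v hv).gen1
  · rw [Finsupp.single_eq_of_ne hl, add_zero]
    set x := toR (R := R) (n + 1) c with hx
    have hbx : bdR n x = 0 := by rw [hx, ← toR_bd, hb, map_zero]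
    have h1 : bdR (n + 2) (coneR q (n + 2) (coneR 0 (n + 1) x)) =
        coneR 0 (n + 1) x - coneR q (n + 1) x := by
      rw [bdR_coneR, bdR_coneR, hbx, map_zero, sub_zero]
    have h2 : (J (bdR (n + 2) (coneR q (n + 2) (coneR 0 (n + 1) x)))) l = 0 := by
      refine J_bd l _ ?_
      rw [Finsupp.mem_supported]
      intro u hu
      have h3 : u ∈ (coneR 0 (n + 1) x).support.image
          (fun u => (Fin.cons q u : Fin (n + 3) → Fin (n + 1) → ℝ)) := Finsupp.mapDomain_support hu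
      rw [Finset.mem_image] at h3
      obtain ⟨u', hu', rfl⟩ := h3
      have h4 : u' ∈ x.support.image
          (fun u => (Fin.cons 0 u : Fin (n + 2) → Fin (n + 1) → ℝ)) := Finsupp.mapDomain_support hu'
      rw [Finset.mem_image] at h4
      obtain ⟨v, hv, rfl⟩ := h4
      have hv' : v ∈ c.support := by
        have h5 := toR_supp (R := R) (c.support : Set (Fin (n + 1) → Fin (n + 1) → ℝ)) c
          ((Finsupp.mem_supported ℤ c).mpr le_rfl)
        exact (Finsupp.mem_supported R _).mp h5 hv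
      have hgb := (Finsupp.mem_supported ℤ _).mp hc hv'
      have hcp := cw_spec (R := ℤ) c v hv'
      change Gs (lat l) (Set.range (Fin.cons q (Fin.cons 0 v : Fin (n + 2) → Fin (n + 1) → ℝ) :
        Fin (n + 3) → Fin (n + 1) → ℝ))
      rw [Fin.range_cons, Fin.range_cons]
      exact hcp.2.1 l (hgb.2 l hl)
    rw [h1, map_sub, Finsupp.sub_apply, sub_eq_zero] at h2
    exact h2.symm

section main

variable {n : ℕ} {X : Type*} [MulAction G X]
variable (ρ : G →* Matrix (Fin (n + 1)) (Fin (n + 1)) ℤ) (x : X → Fin (n + 1) → ℤ) (s : X → R)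
  (N : R)
variable (χ : X → (Fin (n + 1) → ℤ) → R) (hχ : ∀ g a m, χ (g • a) (ρ g *ᵥ m) = χ a m)
  (hs : ∀ a, s a * (χ a (x a) - 1) = N) (hmul : ∀ a l m, χ a (l + m) = χ a l * χ a m)
  (hone : ∀ a, χ a 0 = 1)

include hχ hs hmul hone in
theorem key_upper (a : X) (τ : T G (n + 2)) :
    N * II (χ a) (bb ρ x s N (n + 1) a (bd (n + 1) τ)) =
      N ^ (n + 3) * (((wind (FG ρ (n + 1) (bd (n + 1) τ)) : ℤ) : R) +
        II (χ a) (coneR 0 (n + 1) (toR (n + 1) (FG ρ (n + 1) (bd (n + 1) τ))))) := by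
  set c := FG ρ (n + 1) (bd (n + 1) τ) with hc
  have hbc : bd n c = 0 := by rw [hc, FG_bd, bd_bd, map_zero]
  have hGB := FG_GB ρ (n + 1) (bd (n + 1) τ)
  rw [← hc] at hGB
  set q := cw (R := ℤ) c with hq
  set X0 := toR (R := R) (n + 1) c with hX0
  have hbX : bdR n X0 = 0 := by rw [hX0, ← toR_bd, hbc, map_zero]
  set Y := bb ρ x s N (n + 1) a (bd (n + 1) τ) - N ^ (n + 2) • coneR q (n + 1) X0 with hY
  have hYb : bdR (n + 1) Y ∈ Qr (χ a) (n + 1) := by
    have h1 := bb_bd ρ x s N χ hχ hs n a (bd (n + 1) τ)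
    have h2 : bdR (n + 1) Y = bdR (n + 1) (bb ρ x s N (n + 1) a (bd (n + 1) τ)) -
        N • zz ρ x s N n a (bd (n + 1) τ) := by
      rw [hY, map_sub, map_smul, bdR_coneR, hbX, map_zero, sub_zero, zz, bd_bd, map_zero, sub_zero,
        smul_smul, ← pow_succ']
    rw [h2]
    exact h1
  have hYG : Y ∈ Finsupp.supported R R (GA (n := n + 1) (n + 2)) := by
    refine Submodule.sub_mem _ (bb_GA ρ x s N (n + 1) a _) (Submodule.smul_mem _ _ ?_)
    rw [Finsupp.mem_supported]
    classical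
    intro u hu
    have h3 : u ∈ X0.support.image
        (fun u => (Fin.cons q u : Fin (n + 2) → Fin (n + 1) → ℝ)) := Finsupp.mapDomain_support hu
    rw [Finset.mem_image] at h3
    obtain ⟨v, hv, rfl⟩ := h3
    have hv' : v ∈ c.support := by
      have h5 := toR_supp (R := R) (c.support : Set (Fin (n + 1) → Fin (n + 1) → ℝ)) c
        ((Finsupp.mem_supported ℤ c).mpr le_rfl)
      exact (Finsupp.mem_supported R _).mp h5 hv
    exact GA_cons (GB_sub_GA ((Finsupp.mem_supported ℤ _).mp hGB hv')) (cw_spec (R := ℤ) c v hv')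
  have h1 := tw_fill (χ a) (x a) (s a) N (hs a) (n + 1) Y hYb
  have h2 := II_Qr (χ a) (hmul a) _ h1
  have h3 : II (χ a) (bdR (n + 2) (s a • hh (x a) (n + 2) Y)) = 0 :=
    II_bd (χ a) _ (Submodule.smul_mem _ _ (hh_GA _ _ _ hYG))
  have h4 : II (χ a) (N • Y) = 0 := by
    have h5 : II (χ a) (bdR (n + 1 + 1) (s a • hh (x a) (n + 1 + 1) Y)) - II (χ a) (N • Y) = 0 := by
      rw [← map_sub]; exact h2
    rw [sub_eq_zero] at h5
    rw [← h5]
    exact h3
  rw [map_smul, hY, map_sub, map_smul, smul_eq_mul, smul_eq_mul, mul_sub, sub_eq_zero] at h4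
  rw [h4, ← mul_assoc, ← pow_succ']
  congr 1
  have h6 := J_cone (R := R) c hGB hbc
  rw [← hq, ← hX0] at h6
  rw [II, LinearMap.comp_apply, h6, map_add, Finsupp.linearCombination_single, hone, smul_eq_mul,
    mul_one, LinearMap.comp_apply]
  ring

/-- The invariant cochain whose coboundary is a multiple of the obstruction cocycle. -/
noncomputable def Lam [Fintype X] (σ : T G (n + 1)) : R :=
  ∑ a : X, (N * II (χ a) (bb ρ x s N (n + 1) a σ) -
    N ^ (n + 3) * II (χ a) (coneR 0 (n + 1) (toR (n + 1) (FG ρ (n + 1) σ))))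

include hχ hs hmul hone in
theorem Lam_bd [Fintype X] (τ : T G (n + 2)) :
    Lam ρ x s N χ (bd (n + 1) τ) =
      N ^ (n + 3) * (Fintype.card X : R) * ((wind (FG ρ (n + 1) (bd (n + 1) τ)) : ℤ) : R) := by
  rw [Lam]
  have h : ∀ a : X, N * II (χ a) (bb ρ x s N (n + 1) a (bd (n + 1) τ)) -
      N ^ (n + 3) * II (χ a) (coneR 0 (n + 1) (toR (n + 1) (FG ρ (n + 1) (bd (n + 1) τ)))) =
      N ^ (n + 3) * ((wind (FG ρ (n + 1) (bd (n + 1) τ)) : ℤ) : R) := by
    intro a
    rw [key_upper ρ x s N χ hχ hs hmul hone a τ]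
    ring
  simp only [h, Finset.sum_const, Finset.card_univ, nsmul_eq_mul]
  ring

include hχ in
theorem Lam_ac [Fintype X] (hρ : ∀ g, 0 < (rl ρ g).det) (g : G) (σ : T G (n + 1)) :
    Lam ρ x s N χ (ac g (n + 1) σ) = Lam ρ x s N χ σ := by
  rw [Lam, Lam]
  refine Fintype.sum_equiv (MulAction.toPerm g⁻¹) _ _ fun a => ?_
  have ha : a = g • (g⁻¹ • a) := (smul_inv_smul g a).symm
  have h1 : II (χ a) (bb ρ x s N (n + 1) a (ac g (n + 1) σ)) =
      II (χ (g⁻¹ • a)) (bb ρ x s N (n + 1) (g⁻¹ • a) σ) := by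
    conv_lhs => rw [ha]
    rw [bb_equi]
    exact II_lm ρ g (hρ g) _ _ (fun l => hχ g (g⁻¹ • a) l) _
  have h2 : II (χ a) (coneR 0 (n + 1) (toR (n + 1) (FG ρ (n + 1) (ac g (n + 1) σ)))) =
      II (χ (g⁻¹ • a)) (coneR 0 (n + 1) (toR (n + 1) (FG ρ (n + 1) σ))) := by
    rw [FG_equi, toR_lm]
    have h3 : coneR 0 (n + 1) (lmR (rl ρ g) (n + 1) (toR (R := R) (n + 1) (FG ρ (n + 1) σ))) =
        lmR (rl ρ g) (n + 2) (coneR 0 (n + 1) (toR (n + 1) (FG ρ (n + 1) σ))) := by
      rw [lmR, lmR, tmapR_coneR, Matrix.mulVec_zero]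
    rw [h3]
    refine II_lm ρ g (hρ g) _ _ (fun l => ?_) _
    have := hχ g (g⁻¹ • a) l
    rw [smul_inv_smul] at this
    exact this
  rw [h1, h2]
  rfl

theorem Lam_add [Fintype X] (σ σ' : T G (n + 1)) :
    Lam ρ x s N χ (σ + σ') = Lam ρ x s N χ σ + Lam ρ x s N χ σ' := by
  rw [Lam, Lam, Lam, ← Finset.sum_add_distrib]
  refine Finset.sum_congr rfl fun a _ => ?_
  simp only [map_add]
  ring

end main

end Pool.Agent.HLU
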